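import Mathlib
import Pool.Agent.W313.BMX.Stm

/-!
# Quadratic forms in five variables over the rational numbers: statements of the parts
(project QB, helper847)
-/

set_option autoImplicit false

namespace Pool.Agent.R847.QB

open Pool.Agent.W313.BMX (Splits)

/-- Part ISO: five variables over `ℚ_p`. -/
def S_ISO : Prop := ∀ (p : ℕ) [Fact p.Prime] (a : Fin 5 → ℤ), (∀ i, a i ≠ 0) →
  ∃ x : Fin 5 → ℚ_[p], x ≠ 0 ∧ ∑ i, (a i : ℚ_[p]) * x i ^ 2 = 0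

/-- Part DIR: integers with given square classes at given primes (Dirichlet). -/
def S_DIR : Prop := ∀ (T : Finset Nat.Primes) (g : Nat.Primes → ℤ) (s : ℤ), (s = 1 ∨ s = -1) →
  (∀ p, g p ≠ 0) → ∃ (n : ℤ) (q : Nat.Primes), q ∉ T ∧ 0 < n * s ∧
    (∀ p : Nat.Primes, p ∈ T → IsSquare (((n * g p : ℤ)) : ℚ_[(p : ℕ)])) ∧
    ∀ p : Nat.Primes, p ∉ T → p ≠ q → ¬ ((p : ℕ) : ℤ) ∣ n

/-- The theorem of Meyer for diagonal forms in five variables. -/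
def S_MEY : Prop := ∀ a : Fin 5 → ℤ, (∀ i, a i ≠ 0) → (∃ i, 0 < a i) → (∃ i, a i < 0) →
  ∃ x : Fin 5 → ℚ, x ≠ 0 ∧ ∑ i, (a i : ℚ) * x i ^ 2 = 0

/-- Part MAT: the theorem of Meyer for symmetric matrices. -/
def S_MAT : Prop := ∀ (N : ℕ), 5 ≤ N → ∀ M : Matrix (Fin N) (Fin N) ℚ, M.IsSymm → M.det ≠ 0 →
  (∃ v : Fin N → ℝ, v ≠ 0 ∧ v ⬝ᵥ (M.map (algebraMap ℚ ℝ)).mulVec v = 0) →
  ∃ w : Fin N → ℚ, w ≠ 0 ∧ w ⬝ᵥ M.mulVec w = 0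

end Pool.Agent.R847.QB
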