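import Mathlib
import Pool.Agent.R847.QB.Stm

/-! Project QB, piece MAT: the theorem of Meyer for symmetric matrices. -/

set_option autoImplicit false

namespace Pool.Agent.R847.QB

namespace M394

open Matrix

/-- diagonalisation of a symmetric matrix over `ℚ` -/
theorem exists_diag (N : ℕ) (M : Matrix (Fin N) (Fin N) ℚ) (hM : M.IsSymm) :
    ∃ (P Q : Matrix (Fin N) (Fin N) ℚ) (w : Fin N → ℚ), P * Q = 1 ∧ Q * P = 1 ∧
      Pᵀ * M * P = Matrix.diagonal w := by
  haveI : Invertible (2 : ℚ) := invertibleOfNonzero (by norm_num)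
  have hB : LinearMap.IsSymm (Matrix.toBilin' M) := by
    constructor
    intro x y
    rw [RingHom.id_apply, Matrix.toBilin'_apply', Matrix.toBilin'_apply']
    rw [Matrix.dotProduct_mulVec, ← Matrix.mulVec_transpose, hM.eq, dotProduct_comm]
  obtain ⟨v, hv⟩ := LinearMap.BilinForm.exists_orthogonal_basis hB
  have hfin : Module.finrank ℚ (Fin N → ℚ) = N := by simp
  set b := v.reindex (finCongr hfin) with hb
  have hbo : ∀ i j, i ≠ j → Matrix.toBilin' M (b i) (b j) = 0 := by
    intro i j hij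
    rw [hb, Module.Basis.reindex_apply, Module.Basis.reindex_apply]
    exact hv (fun h => hij (by simpa using h))
  refine ⟨(Pi.basisFun ℚ (Fin N)).toMatrix b, b.toMatrix (Pi.basisFun ℚ (Fin N)),
    fun i => Matrix.toBilin' M (b i) (b i), Module.Basis.toMatrix_mul_toMatrix_flip _ _,
    Module.Basis.toMatrix_mul_toMatrix_flip _ _, ?_⟩
  ext i j
  have h1 : (((Pi.basisFun ℚ (Fin N)).toMatrix b)ᵀ * M * (Pi.basisFun ℚ (Fin N)).toMatrix b) i j =
      Matrix.toBilin' M (b i) (b j) := by
    rw [Matrix.toBilin'_apply', Matrix.mul_assoc, Matrix.mul_apply]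
    simp only [dotProduct, Matrix.transpose_apply, Module.Basis.toMatrix_apply, Pi.basisFun_repr]
    refine Finset.sum_congr rfl fun k _ => ?_
    rw [Matrix.mul_apply]
    rfl
  rw [h1]
  by_cases hij : i = j
  · subst hij
    rw [Matrix.diagonal_apply_eq]
  · rw [Matrix.diagonal_apply_ne _ hij, hbo i j hij]

theorem quad_eq {R : Type} [CommRing R] (N : ℕ) (M P : Matrix (Fin N) (Fin N) R) (w : Fin N → R)
    (h : Pᵀ * M * P = Matrix.diagonal w) (z : Fin N → R) :
    P.mulVec z ⬝ᵥ M.mulVec (P.mulVec z) = ∑ i, w i * z i ^ 2 := by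
  have h1 : P.mulVec z ⬝ᵥ M.mulVec (P.mulVec z) = z ⬝ᵥ (Pᵀ * M * P).mulVec z := by
    rw [← Matrix.mulVec_mulVec, ← Matrix.mulVec_mulVec, Matrix.dotProduct_mulVec z,
      Matrix.vecMul_transpose]
  rw [h1, h]
  simp only [dotProduct, Matrix.mulVec_diagonal]
  exact Finset.sum_congr rfl fun i _ => by ring

end M394

open Matrix M394

theorem mat_ (h : S_MEY) : S_MAT := by
  classical
  intro N hN M hM hdet ⟨v, hv0, hv⟩
  obtain ⟨P, Q, w, hPQ, hQP, hD⟩ := exists_diag N M hM
  -- the diagonal entries are nonzero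
  have hw : ∀ i, w i ≠ 0 := by
    have h1 : (Pᵀ * M * P).det ≠ 0 := by
      rw [Matrix.det_mul, Matrix.det_mul, Matrix.det_transpose]
      have h2 : P.det ≠ 0 := by
        intro h0
        have := congrArg Matrix.det hPQ
        rw [Matrix.det_mul, h0, zero_mul, Matrix.det_one] at this
        exact zero_ne_one this
      exact mul_ne_zero (mul_ne_zero h2 hdet) h2
    rw [hD, Matrix.det_diagonal] at h1
    intro i hi
    exact h1 (Finset.prod_eq_zero (Finset.mem_univ i) hi)
  -- real solution of the diagonal form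
  have hreal : ∃ x : Fin N → ℝ, x ≠ 0 ∧ ∑ i, (w i : ℝ) * x i ^ 2 = 0 := by
    set f : ℚ →+* ℝ := algebraMap ℚ ℝ with hf
    have e1 : (P.map f) * (Q.map f) = 1 := by
      rw [← Matrix.map_mul, hPQ]
      simp
    have e2 : (P.map f)ᵀ * (M.map f) * (P.map f) = Matrix.diagonal fun i => (w i : ℝ) := by
      have : ((Pᵀ * M * P).map f) = (Matrix.diagonal w).map f := by rw [hD]
      rw [Matrix.map_mul, Matrix.map_mul] at this
      rw [← Matrix.transpose_map, this, Matrix.diagonal_map (map_zero f)]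
      rfl
    refine ⟨(Q.map f).mulVec v, ?_, ?_⟩
    · intro h0
      have : (P.map f).mulVec ((Q.map f).mulVec v) = v := by
        rw [Matrix.mulVec_mulVec, e1, Matrix.one_mulVec]
      rw [h0, Matrix.mulVec_zero] at this
      exact hv0 this.symm
    · have e3 := quad_eq N (M.map f) (P.map f) _ e2 ((Q.map f).mulVec v)
      rw [← e3, Matrix.mulVec_mulVec _ (P.map f) (Q.map f), e1, Matrix.one_mulVec]
      exact hv
  obtain ⟨x, hx0, hx⟩ := hreal
  obtain ⟨i0, hi0⟩ : ∃ i, x i ≠ 0 := by
    by_contra hc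
    push Not at hc
    exact hx0 (funext hc)
  have hpos : ∃ i, 0 < w i := by
    by_contra hc
    push Not at hc
    have h1 : ∑ i, -((w i : ℝ) * x i ^ 2) = 0 := by rw [Finset.sum_neg_distrib, hx, neg_zero]
    have h2 := (Finset.sum_eq_zero_iff_of_nonneg (fun i _ => by
      have h3 : (w i : ℝ) ≤ 0 := by exact_mod_cast hc i
      nlinarith [sq_nonneg (x i)])).1 h1 i0 (Finset.mem_univ _)
    have h3 : (w i0 : ℝ) ≠ 0 := by exact_mod_cast hw i0
    rw [neg_eq_zero, mul_eq_zero] at h2
    rcases h2 with h2 | h2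
    · exact h3 h2
    · exact hi0 (by simpa using h2)
  have hneg : ∃ i, w i < 0 := by
    by_contra hc
    push Not at hc
    have h2 := (Finset.sum_eq_zero_iff_of_nonneg (fun i _ => by
      have h3 : (0 : ℝ) ≤ w i := by exact_mod_cast hc i
      positivity)).1 hx i0 (Finset.mem_univ _)
    have h3 : (w i0 : ℝ) ≠ 0 := by exact_mod_cast hw i0
    rw [mul_eq_zero] at h2
    rcases h2 with h2 | h2
    · exact h3 h2
    · exact hi0 (by simpa using h2)
  obtain ⟨i, hi⟩ := hpos
  obtain ⟨j, hj⟩ := hneg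
  obtain ⟨S, hS, hScard⟩ := Finset.exists_superset_card_eq (s := ({i, j} : Finset (Fin N))) (n := 5)
    (le_trans (Finset.card_le_two) (by norm_num)) (by rw [Fintype.card_fin]; exact hN)
  set φ := S.orderEmbOfFin hScard with hφ
  have hrange : ∀ t ∈ S, ∃ k, φ k = t := by
    intro t ht
    have : t ∈ Set.range φ := by
      rw [hφ, Finset.range_orderEmbOfFin]
      exact ht
    exact this
  have hnum : ∀ t, 0 < ((w t).den : ℤ) := fun t => by exact_mod_cast (w t).den_pos
  obtain ⟨y, hy0, hy⟩ := h (fun k => (w (φ k)).num * (w (φ k)).den)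
    (fun k => mul_ne_zero (Rat.num_ne_zero.2 (hw _)) (hnum _).ne')
    (by
      obtain ⟨k, hk⟩ := hrange i (hS (by simp))
      exact ⟨k, by
        rw [hk]
        exact mul_pos (Rat.num_pos.2 hi) (hnum _)⟩)
    (by
      obtain ⟨k, hk⟩ := hrange j (hS (by simp))
      exact ⟨k, by
        rw [hk]
        exact mul_neg_of_neg_of_pos (Rat.num_neg.2 hj) (hnum _)⟩)
  set z : Fin N → ℚ := Function.extend φ (fun k => ((w (φ k)).den : ℚ) * y k) 0 with hz
  have hzφ : ∀ k, z (φ k) = ((w (φ k)).den : ℚ) * y k := fun k =>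
    φ.injective.extend_apply _ _ k
  have hzero : ∀ t, t ∉ Set.range φ → z t = 0 := by
    intro t ht
    rw [hz, Function.extend_apply' _ _ _ (by simpa using ht)]
    rfl
  have hsum : ∑ t, w t * z t ^ 2 = 0 := by
    rw [← hy]
    symm
    refine Fintype.sum_of_injective φ φ.injective _ _ ?_ ?_
    · intro t ht
      rw [hzero t ht]
      ring
    · intro k
      rw [hzφ k]
      have h1 : w (φ k) * ((w (φ k)).den : ℚ) = (w (φ k)).num := Rat.mul_den_eq_num _
      push_cast
      rw [← h1]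
      ring
  refine ⟨P.mulVec z, ?_, ?_⟩
  · intro h0
    have h1 : Q.mulVec (P.mulVec z) = z := by
      rw [Matrix.mulVec_mulVec, hQP, Matrix.one_mulVec]
    rw [h0, Matrix.mulVec_zero] at h1
    apply hy0
    funext k
    have h2 := hzφ k
    rw [← h1] at h2
    have h3 : ((w (φ k)).den : ℚ) ≠ 0 := by exact_mod_cast (w (φ k)).den_ne_zero
    rcases mul_eq_zero.1 h2.symm with h4 | h4
    · exact absurd h4 h3
    · exact h4
  · rw [quad_eq N M P w hD z, hsum]

end Pool.Agent.R847.QB
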