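import Mathlib
import Pool.Agent.R847.QB.Stm

/-!
# Quadratic forms over the rational numbers and linear algebra: statements of the parts, II
(project QB, helper847)
-/

set_option autoImplicit false

namespace Pool.Agent.R847.QB

open Matrix

/-- Part DEG: the theorem of Meyer for degenerate forms of rank at least five. -/
def S_DEG : Prop := ∀ (N : ℕ) (M : Matrix (Fin N) (Fin N) ℚ), M.IsSymm → 5 ≤ M.rank →
  (∃ v : Fin N → ℝ, (M.map (algebraMap ℚ ℝ)).mulVec v ≠ 0 ∧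
    v ⬝ᵥ (M.map (algebraMap ℚ ℝ)).mulVec v = 0) →
  ∃ w : Fin N → ℚ, M.mulVec w ≠ 0 ∧ w ⬝ᵥ M.mulVec w = 0

/-- Part DEN: the rational kernel is dense in the real kernel. -/
def S_DEN : Prop := ∀ (N : ℕ) (M : Matrix (Fin N) (Fin N) ℚ) (v : Fin N → ℝ),
  (M.map (algebraMap ℚ ℝ)).mulVec v = 0 → ∀ ε : ℝ, 0 < ε →
  ∃ w : Fin N → ℚ, M.mulVec w = 0 ∧ ∀ i, |(w i : ℝ) - v i| < ε

/-- Part KER: the kernel of a matrix of constant rank is lower semicontinuous. -/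
def S_KER : Prop := ∀ (N : ℕ) (M : Matrix (Fin N) (Fin N) ℝ) (v : Fin N → ℝ), M.mulVec v = 0 →
  ∀ ε : ℝ, 0 < ε → ∃ δ : ℝ, 0 < δ ∧ ∀ M' : Matrix (Fin N) (Fin N) ℝ,
    (∀ i j, |M' i j - M i j| < δ) → M'.rank ≤ M.rank →
    ∃ v' : Fin N → ℝ, M'.mulVec v' = 0 ∧ ∀ i, |v' i - v i| < ε

end Pool.Agent.R847.QB
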