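import Mathlib
import Pool.Agent.R847.QB.Stm2
import Pool.Agent.R847.QB.Mat

/-! Project QB, piece DEG: the theorem of Meyer for degenerate forms of rank at least five. -/

set_option autoImplicit false

namespace Pool.Agent.R847.QB

open Matrix M394

/-- sums over the indices of the nonzero diagonal entries -/
theorem sum_supp {R : Type} [CommRing R] {N r : ℕ} (w : Fin N → R) (p : Fin N → Prop)
    (hw : ∀ i, ¬ p i → w i = 0) (e : Fin r ≃ {i // p i}) (z : Fin N → R) :
    ∑ k, w (e k) * z (e k) ^ 2 = ∑ i, w i * z i ^ 2 := by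
  classical
  rw [Equiv.sum_comp e (fun i : {i // p i} => w i * z i ^ 2)]
  rw [← Finset.sum_subset (Finset.subset_univ (Finset.univ.filter p)) (by
    intro i _ hi
    rw [Finset.mem_filter] at hi
    rw [hw i (fun h => hi ⟨Finset.mem_univ i, h⟩), zero_mul])]
  exact (Finset.sum_subtype (Finset.univ.filter p) (by simp) (fun i => w i * z i ^ 2)).symm

theorem deg_ (h : S_MAT) : S_DEG := by
  classical
  intro N M hM hr ⟨v, hv1, hv2⟩
  obtain ⟨P, Q, w, hPQ, hQP, hD⟩ := exists_diag N M hM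
  have hPdet : IsUnit P.det := by
    rw [isUnit_iff_ne_zero]
    intro h0
    have := congrArg Matrix.det hPQ
    rw [Matrix.det_mul, h0, zero_mul, Matrix.det_one] at this
    exact zero_ne_one this
  have hrank : Fintype.card {i // w i ≠ 0} = M.rank := by
    rw [← Matrix.rank_diagonal, ← hD, Matrix.rank_mul_eq_left_of_isUnit_det _ _ hPdet,
      Matrix.rank_mul_eq_right_of_isUnit_det _ _ (by rwa [Matrix.det_transpose])]
  obtain ⟨e⟩ : Nonempty (Fin (Fintype.card {i // w i ≠ 0}) ≃ {i // w i ≠ 0}) :=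
    ⟨(Fintype.equivFin _).symm⟩
  -- the real matrices
  have hDR : (P.map (algebraMap ℚ ℝ))ᵀ * M.map (algebraMap ℚ ℝ) * P.map (algebraMap ℚ ℝ) =
      Matrix.diagonal fun i => algebraMap ℚ ℝ (w i) := by
    have h1 := congrArg (fun X : Matrix (Fin N) (Fin N) ℚ => X.map (algebraMap ℚ ℝ)) hD
    simp only [Matrix.map_mul, Matrix.transpose_map] at h1
    rw [Matrix.diagonal_map (map_zero _)] at h1
    exact h1
  have hPQR : P.map (algebraMap ℚ ℝ) * Q.map (algebraMap ℚ ℝ) = 1 := by
    rw [← Matrix.map_mul, hPQ, Matrix.map_one _ (map_zero _) (map_one _)]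
  obtain ⟨z, hz⟩ : ∃ z, z = (Q.map (algebraMap ℚ ℝ)).mulVec v := ⟨_, rfl⟩
  have hPz : (P.map (algebraMap ℚ ℝ)).mulVec z = v := by
    rw [hz, Matrix.mulVec_mulVec, hPQR, Matrix.one_mulVec]
  have h1 : ∑ i, algebraMap ℚ ℝ (w i) * z i ^ 2 = 0 := by
    rw [← quad_eq N (M.map (algebraMap ℚ ℝ)) (P.map (algebraMap ℚ ℝ)) _ hDR z, hPz]
    exact hv2
  have h2 : ∃ i, w i ≠ 0 ∧ z i ≠ 0 := by
    by_contra hcon
    push Not at hcon
    apply hv1
    have h3 : ((P.map (algebraMap ℚ ℝ))ᵀ).mulVec ((M.map (algebraMap ℚ ℝ)).mulVec v) = 0 := by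
      rw [← hPz, Matrix.mulVec_mulVec, Matrix.mulVec_mulVec, hDR]
      ext i
      rw [Matrix.mulVec_diagonal]
      by_cases hi : w i = 0
      · rw [hi, map_zero, zero_mul]
        rfl
      · rw [hcon i hi, mul_zero]
        rfl
    have h4 : ((Q.map (algebraMap ℚ ℝ))ᵀ).mulVec
        (((P.map (algebraMap ℚ ℝ))ᵀ).mulVec ((M.map (algebraMap ℚ ℝ)).mulVec v)) =
        (M.map (algebraMap ℚ ℝ)).mulVec v := by
      rw [Matrix.mulVec_mulVec, ← Matrix.transpose_mul, hPQR, Matrix.transpose_one,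
        Matrix.one_mulVec]
    rw [← h4, h3, Matrix.mulVec_zero]
  -- the form of full rank
  obtain ⟨y, hy0, hy⟩ := h (Fintype.card {i // w i ≠ 0}) (by rw [hrank]; exact hr)
    (Matrix.diagonal fun k => w (e k)) (Matrix.isSymm_diagonal _)
    (by
      rw [Matrix.det_diagonal]
      exact Finset.prod_ne_zero_iff.2 fun k _ => (e k).2)
    ⟨fun k => z (e k), by
      obtain ⟨i, hi1, hi2⟩ := h2
      intro h0
      apply hi2
      have := congrFun h0 (e.symm ⟨i, hi1⟩)
      simpa using this, by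
      rw [Matrix.diagonal_map (map_zero _)]
      have h5 : ((fun k => z (e k)) ⬝ᵥ (Matrix.diagonal fun m => algebraMap ℚ ℝ (w (e m))).mulVec
          fun k => z (e k)) = ∑ k, algebraMap ℚ ℝ (w (e k)) * z (e k) ^ 2 := by
        simp only [dotProduct, Matrix.mulVec_diagonal]
        exact Finset.sum_congr rfl fun k _ => by ring
      rw [h5, sum_supp (fun i => algebraMap ℚ ℝ (w i)) (fun i => w i ≠ 0)
        (fun i hi => by rw [not_not.1 hi, map_zero]) e z]
      exact h1⟩
  -- extension by zero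
  obtain ⟨x, hx⟩ : ∃ x : Fin N → ℚ, x = fun i => if hi : w i ≠ 0 then y (e.symm ⟨i, hi⟩) else 0 :=
    ⟨_, rfl⟩
  have hxe : ∀ k, x (e k) = y k := by
    intro k
    rw [hx]
    simp only
    rw [dif_pos (e k).2]
    simp
  refine ⟨P.mulVec x, ?_, ?_⟩
  · intro h0
    apply hy0
    ext k
    have h6 : (Matrix.diagonal w).mulVec x = 0 := by
      rw [← hD, ← Matrix.mulVec_mulVec, ← Matrix.mulVec_mulVec, h0, Matrix.mulVec_zero]
    have h7 := congrFun h6 (e k)
    rw [Matrix.mulVec_diagonal, hxe] at h7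
    exact (mul_eq_zero.1 h7).resolve_left (e k).2
  · rw [quad_eq N M P w hD x, ← sum_supp w (fun i => w i ≠ 0) (fun i hi => not_not.1 hi) e x]
    simp only [dotProduct, Matrix.mulVec_diagonal] at hy
    refine Eq.trans (Finset.sum_congr rfl fun k _ => ?_) hy
    rw [hxe]
    ring

end Pool.Agent.R847.QB
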