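import Mathlib
import Pool.Agent.R847.QB.Stm2

/-!
# Project QB, piece DEN: the rational kernel of a rational matrix is dense in the real kernel
-/

set_option autoImplicit false

namespace Pool.Agent.R847.QB

theorem den_ : S_DEN := by
  intro N M v hv ε hε
  set W : Submodule ℚ ℝ := Submodule.span ℚ (Set.range v) with hW
  have hfin : Module.Finite ℚ W :=
    Module.Finite.iff_fg.2 (Submodule.fg_span (Set.finite_range v))
  set b := Module.finBasis ℚ W with hb
  set x : Fin N → W := fun i => ⟨v i, Submodule.subset_span ⟨i, rfl⟩⟩ with hx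
  set k := Module.finrank ℚ W with hk
  set u : Fin k → Fin N → ℚ := fun l i => b.repr (x i) l with hu
  have hrel : ∀ i, ∑ j, M i j • x j = 0 := by
    intro i
    apply Subtype.ext
    have h1 := congrFun hv i
    simp only [Matrix.mulVec, dotProduct, Matrix.map_apply, Pi.zero_apply] at h1
    rw [Submodule.coe_sum, Submodule.coe_zero, ← h1]
    apply Finset.sum_congr rfl
    intro j _
    rw [Submodule.coe_smul, Algebra.smul_def]
  have hu0 : ∀ l i, ∑ j, M i j * u l j = 0 := by
    intro l i
    have h1 := congrArg (fun z => b.repr z l) (hrel i)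
    simpa [map_sum, Finsupp.finsetSum_apply] using h1
  have hvu : ∀ i, v i = ∑ l, (u l i : ℝ) * (b l : ℝ) := by
    intro i
    have h1 := congrArg (Subtype.val) (b.sum_repr (x i))
    rw [Submodule.coe_sum] at h1
    rw [show v i = ((x i : W) : ℝ) from rfl, ← h1]
    apply Finset.sum_congr rfl
    intro l _
    rw [Submodule.coe_smul, Algebra.smul_def]
    rfl
  set B : ℝ := ∑ l, ∑ i, |(u l i : ℝ)| with hB
  have hB0 : 0 ≤ B := Finset.sum_nonneg fun l _ => Finset.sum_nonneg fun i _ => abs_nonneg _
  have hδ : 0 < ε / (B + 1) := by positivity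
  have hq : ∀ l : Fin k, ∃ q : ℚ, |(q : ℝ) - (b l : ℝ)| < ε / (B + 1) := by
    intro l
    obtain ⟨q, hq1, hq2⟩ := exists_rat_btwn (show (b l : ℝ) - ε / (B + 1) < (b l : ℝ) by linarith)
    refine ⟨q, ?_⟩
    rw [abs_lt]
    constructor <;> linarith
  choose q hq using hq
  refine ⟨fun i => ∑ l, q l * u l i, ?_, ?_⟩
  · ext i
    simp only [Matrix.mulVec, dotProduct, Pi.zero_apply]
    calc ∑ j, M i j * ∑ l, q l * u l j = ∑ j, ∑ l, q l * (M i j * u l j) := by
          apply Finset.sum_congr rfl
          intro j _
          rw [Finset.mul_sum]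
          apply Finset.sum_congr rfl
          intro l _
          ring
      _ = ∑ l, q l * ∑ j, M i j * u l j := by
          rw [Finset.sum_comm]
          apply Finset.sum_congr rfl
          intro l _
          rw [Finset.mul_sum]
      _ = 0 := by simp [hu0]
  · intro i
    have e : ((∑ l, q l * u l i : ℚ) : ℝ) - v i = ∑ l, ((q l : ℝ) - (b l : ℝ)) * (u l i : ℝ) := by
      rw [hvu i, Rat.cast_sum, ← Finset.sum_sub_distrib]
      apply Finset.sum_congr rfl
      intro l _
      push_cast
      ring
    rw [e]
    calc |∑ l, ((q l : ℝ) - (b l : ℝ)) * (u l i : ℝ)|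
        ≤ ∑ l, |((q l : ℝ) - (b l : ℝ)) * (u l i : ℝ)| := Finset.abs_sum_le_sum_abs _ _
      _ ≤ ∑ l, ε / (B + 1) * |(u l i : ℝ)| := by
          apply Finset.sum_le_sum
          intro l _
          rw [abs_mul]
          exact mul_le_mul_of_nonneg_right (hq l).le (abs_nonneg _)
      _ = ε / (B + 1) * ∑ l, |(u l i : ℝ)| := by rw [Finset.mul_sum]
      _ ≤ ε / (B + 1) * B := by
          apply mul_le_mul_of_nonneg_left _ hδ.le
          apply Finset.sum_le_sum
          intro l _
          exact Finset.single_le_sum (f := fun i => |(u l i : ℝ)|)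
            (fun i _ => abs_nonneg _) (Finset.mem_univ i)
      _ < ε / (B + 1) * (B + 1) := by
          apply mul_lt_mul_of_pos_left _ hδ
          linarith
      _ = ε := by field_simp

end Pool.Agent.R847.QB
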