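import Pool.Agent.R847.QB.Stm
import Pool.Agent.W335.BMX.Odd
import Pool.Agent.W975.BMX.Two

/-!
# QB-DIR: integers with given square classes at given primes
-/

set_option autoImplicit false

namespace Pool.Agent.R847.QB

open Finset

theorem dir_aux_pow (p : ℕ) [Fact p.Prime] (g : ℤ) (hg : g ≠ 0) :
    ∃ (v : ℕ) (u : ℤ), g = (p : ℤ) ^ v * u ∧ ¬ (p : ℤ) ∣ u := by
  have hp := (Fact.out : p.Prime)
  obtain ⟨v, m, hm, hgm⟩ := Nat.exists_eq_pow_mul_and_not_dvd (n := g.natAbs) (by simpa using hg) p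
    hp.ne_one
  rcases Int.natAbs_eq g with h | h
  · refine ⟨v, m, ?_, ?_⟩
    · rw [h, hgm]; push_cast; ring
    · intro hd; exact hm (by exact_mod_cast hd)
  · refine ⟨v, -m, ?_, ?_⟩
    · rw [h, hgm]; push_cast; ring
    · intro hd
      rw [dvd_neg] at hd
      exact hm (by exact_mod_cast hd)

theorem dir_square (p : ℕ) [Fact p.Prime] (w q : ℤ) (hw : ¬ (p : ℤ) ∣ w) (hq : ¬ (p : ℤ) ∣ q)
    (h : ((p : ℤ) ^ 3) ∣ q - w) : IsSquare ((w * q : ℤ) : ℚ_[p]) := by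
  by_cases hp2 : p = 2
  · subst hp2
    apply Pool.Agent.W975.BMX.two1 w q
    · have : ¬ (2 : ℤ) ∣ w := by exact_mod_cast hw
      omega
    · have h8 : (8 : ℤ) ∣ q - w := by
        have := h
        norm_num at this
        exact this
      omega
  · apply Pool.Agent.W335.BMX.odd1 p hp2 w q hw hq
    have h1 : (p : ℤ) ∣ q - w := dvd_trans (dvd_pow_self _ (by norm_num)) h
    have h2 : ((w : ℤ) : ZMod p) = ((q : ℤ) : ZMod p) := by
      rw [ZMod.intCast_eq_intCast_iff_dvd_sub]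
      exact h1
    unfold legendreSym
    rw [h2]

theorem dir_ : S_DIR := by
  intro T g s hs hg
  classical
  choose v u hgu hu using fun p : Nat.Primes => dir_aux_pow (p : ℕ) (g p) (hg p)
  have hs1 : s * s = 1 := by rcases hs with rfl | rfl <;> norm_num
  have hsp : ∀ p : Nat.Primes, ¬ ((p : ℕ) : ℤ) ∣ s := by
    intro p hd
    have h1 : ((p : ℕ) : ℤ) ∣ 1 := by rw [← hs1]; exact dvd_mul_of_dvd_left hd _
    exact (Nat.Prime.one_lt p.2).ne' (by
      have := Int.natAbs_dvd_natAbs.2 h1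
      simpa using this)
  have hpr : ∀ p : Nat.Primes, Prime ((p : ℕ) : ℤ) := fun p => Nat.prime_iff_prime_int.1 p.2
  -- a prime dividing a product of powers of other primes
  have hdvd : ∀ (A : Finset Nat.Primes) (p : Nat.Primes),
      ((p : ℕ) : ℤ) ∣ ∏ r ∈ A, ((r : ℕ) : ℤ) ^ v r → p ∈ A := by
    intro A p h
    rw [(hpr p).dvd_finsetProd_iff] at h
    obtain ⟨r, hr, h⟩ := h
    have h1 := (hpr p).dvd_of_dvd_pow h
    have h2 : (p : ℕ) ∣ (r : ℕ) := by exact_mod_cast h1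
    have h3 : (p : ℕ) = r := (Nat.prime_dvd_prime_iff_eq p.2 r.2).1 h2
    rw [show p = r from Subtype.ext h3]
    exact hr
  let w : Nat.Primes → ℤ := fun p => s * (∏ r ∈ T.erase p, ((r : ℕ) : ℤ) ^ v r) * u p
  have hw : ∀ p : Nat.Primes, ¬ ((p : ℕ) : ℤ) ∣ w p := by
    intro p h
    rcases (hpr p).dvd_or_dvd h with h | h
    · rcases (hpr p).dvd_or_dvd h with h | h
      · exact hsp p h
      · exact absurd (hdvd _ _ h) (by simp)
    · exact hu p h
  -- Chinese remainder theorem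
  let a : Nat.Primes → ℕ := fun p => (w p % (((p : ℕ) : ℤ) ^ 3)).toNat
  let sm : Nat.Primes → ℕ := fun p => (p : ℕ) ^ 3
  have hsm : ∀ i ∈ T, sm i ≠ 0 := fun i _ => pow_ne_zero _ i.2.ne_zero
  have hcop : Set.Pairwise (T : Set Nat.Primes) (Function.onFun Nat.Coprime sm) := by
    intro i _ j _ hij
    exact Nat.Coprime.pow _ _ ((Nat.coprime_primes i.2 j.2).2 (fun h => hij (Subtype.ext h)))
  obtain ⟨k, hk⟩ := Nat.chineseRemainderOfFinset a sm T hsm hcop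
  have ha : ∀ p : Nat.Primes, ((p : ℕ) : ℤ) ^ 3 ∣ (a p : ℤ) - w p := by
    intro p
    have h0 : (0 : ℤ) ≤ w p % (((p : ℕ) : ℤ) ^ 3) :=
      Int.emod_nonneg _ (pow_ne_zero _ (by exact_mod_cast p.2.ne_zero))
    have h1 : (a p : ℤ) = w p % (((p : ℕ) : ℤ) ^ 3) := Int.toNat_of_nonneg h0
    rw [h1, Int.emod_def]
    exact ⟨-(w p / ((p : ℕ) : ℤ) ^ 3), by ring⟩
  have hkw : ∀ p ∈ T, ((p : ℕ) : ℤ) ^ 3 ∣ (k : ℤ) - w p := by
    intro p hp
    have h1 := (Nat.modEq_iff_dvd.1 (hk p hp).symm)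
    have h2 : (((sm p : ℕ)) : ℤ) = ((p : ℕ) : ℤ) ^ 3 := by simp [sm]
    rw [h2] at h1
    have h5 := dvd_add h1 (ha p)
    rwa [sub_add_sub_cancel] at h5
  set M : ℕ := ∏ p ∈ T, sm p with hM
  have hM0 : M ≠ 0 := prod_ne_zero_iff.2 hsm
  have : NeZero M := ⟨hM0⟩
  have hkM : Nat.Coprime k M := by
    apply Nat.Coprime.prod_right
    intro p hp
    apply Nat.Coprime.pow_right
    rw [Nat.coprime_comm, Nat.Prime.coprime_iff_not_dvd p.2]
    intro hd
    apply hw p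
    have h1 : ((p : ℕ) : ℤ) ∣ (k : ℤ) := by exact_mod_cast hd
    have h2 : ((p : ℕ) : ℤ) ∣ (k : ℤ) - w p := dvd_trans (dvd_pow_self _ (by norm_num)) (hkw p hp)
    have := dvd_sub h1 h2
    simpa using this
  have hunit : IsUnit ((k : ℕ) : ZMod M) := (ZMod.isUnit_iff_coprime k M).2 hkM
  obtain ⟨q, hqgt, hqp, hqk⟩ := Nat.forall_exists_prime_gt_and_eq_mod hunit (∑ p ∈ T, (p : ℕ))
  have hqk' : ∀ p ∈ T, ((p : ℕ) : ℤ) ^ 3 ∣ (q : ℤ) - w p := by
    intro p hp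
    have h1 : q ≡ k [MOD M] := (ZMod.natCast_eq_natCast_iff q k M).1 hqk
    have h2 : q ≡ k [MOD sm p] := h1.of_dvd (dvd_prod_of_mem _ hp)
    have h3 := Nat.modEq_iff_dvd.1 h2.symm
    have h4 : (((sm p : ℕ)) : ℤ) = ((p : ℕ) : ℤ) ^ 3 := by simp [sm]
    rw [h4] at h3
    have h5 := dvd_add h3 (hkw p hp)
    rwa [sub_add_sub_cancel] at h5
  have hqT : ∀ p ∈ T, (p : ℕ) ≠ q := by
    intro p hp h
    have h1 : (p : ℕ) ≤ ∑ p ∈ T, (p : ℕ) := single_le_sum (f := fun p : Nat.Primes => (p : ℕ))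
      (fun _ _ => Nat.zero_le _) hp
    omega
  set NN : ℤ := ∏ r ∈ T, ((r : ℕ) : ℤ) ^ v r with hNN
  have hNpos : 0 < NN := prod_pos fun r _ => pow_pos (by exact_mod_cast r.2.pos) _
  refine ⟨s * NN * q, ⟨q, hqp⟩, ?_, ?_, ?_, ?_⟩
  · intro h
    exact hqT _ h rfl
  · have h1 : s * NN * q * s = (s * s) * (NN * q) := by ring
    rw [h1, hs1, one_mul]
    exact mul_pos hNpos (by exact_mod_cast hqp.pos)
  · intro p hp
    have h1 : s * NN * q * g p = (((p : ℕ) : ℤ) ^ v p * ((p : ℕ) : ℤ) ^ v p) * (w p * q) := by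
      have h2 : NN = ((p : ℕ) : ℤ) ^ v p * ∏ r ∈ T.erase p, ((r : ℕ) : ℤ) ^ v r := by
        exact (mul_prod_erase T (fun r : Nat.Primes => ((r : ℕ) : ℤ) ^ v r) hp).symm
      have h3 := hgu p
      rw [h2]
      conv_lhs => rw [h3]
      simp only [w]
      ring
    rw [h1]
    have h4 : ¬ ((p : ℕ) : ℤ) ∣ (q : ℤ) := by
      intro hd
      have h5 : (p : ℕ) ∣ q := by exact_mod_cast hd
      exact hqT p hp ((Nat.prime_dvd_prime_iff_eq p.2 hqp).1 h5)
    have h6 := dir_square (p : ℕ) (w p) q (hw p) h4 (hqk' p hp)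
    rw [Int.cast_mul]
    refine IsSquare.mul ?_ h6
    rw [Int.cast_mul]
    exact ⟨_, rfl⟩
  · intro p hpT hpq hd
    rcases (hpr p).dvd_or_dvd hd with h | h
    · rcases (hpr p).dvd_or_dvd h with h | h
      · exact hsp p h
      · exact hpT (hdvd _ _ h)
    · have h5 : (p : ℕ) ∣ q := by exact_mod_cast h
      exact hpq (Subtype.ext ((Nat.prime_dvd_prime_iff_eq p.2 hqp).1 h5))

end Pool.Agent.R847.QB
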