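import Pool.Agent.R847.QB.Stm
import Pool.Agent.W335.BMX.Odd
import Pool.Agent.W310.BMX.Rep
import Pool.Agent.W975.BMX.Two

/-!
# QB-ISO (helper139): quadratic forms in five variables over `ℚ_p` are isotropic
-/

set_option autoImplicit false

namespace Pool.Agent.R847.QB

open Pool.Agent.W313.BMX (Splits)

namespace Iso

variable {F : Type} [Field F]

/-- isotropy of a diagonal form in five variables -/
def IsoF (b : Fin 5 → F) : Prop := ∃ x : Fin 5 → F, x ≠ 0 ∧ ∑ i, b i * x i ^ 2 = 0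

theorem iso_scale {a b c : Fin 5 → F} (hc : ∀ i, c i ≠ 0) (h : ∀ i, a i = b i * c i ^ 2)
    (hb : IsoF b) : IsoF a := by
  obtain ⟨x, hx, hs⟩ := hb
  refine ⟨fun i => x i / c i, ?_, ?_⟩
  · intro h0
    apply hx
    funext i
    have := congrFun h0 i
    simp only [Pi.zero_apply, div_eq_zero_iff, hc i, or_false] at this
    simpa using this
  · rw [← hs]
    refine Finset.sum_congr rfl fun i _ => ?_
    rw [h i]
    have := hc i
    field_simp

theorem iso_mul {a : Fin 5 → F} {k : F} (hk : k ≠ 0) (h : IsoF fun i => k * a i) : IsoF a := by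
  obtain ⟨x, hx, hs⟩ := h
  refine ⟨x, hx, ?_⟩
  have : k * ∑ i, a i * x i ^ 2 = 0 := by
    rw [← hs, Finset.mul_sum]
    exact Finset.sum_congr rfl fun i _ => by ring
  rcases mul_eq_zero.1 this with h | h
  · exact absurd h hk
  · exact h

theorem iso_perm {a : Fin 5 → F} (σ : Equiv.Perm (Fin 5)) (h : IsoF fun i => a (σ i)) :
    IsoF a := by
  obtain ⟨x, hx, hs⟩ := h
  refine ⟨fun i => x (σ.symm i), ?_, ?_⟩
  · intro h0
    apply hx
    funext i
    have := congrFun h0 (σ i)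
    simpa using this
  · rw [← hs, ← Equiv.sum_comp σ]
    exact Finset.sum_congr rfl fun i _ => by simp

theorem pigeon (t : Fin 5 → Bool) :
    (t 0 = t 1 ∧ t 0 = t 2) ∨
    (t 0 = t 1 ∧ t 0 = t 3) ∨
    (t 0 = t 1 ∧ t 0 = t 4) ∨
    (t 0 = t 2 ∧ t 0 = t 3) ∨
    (t 0 = t 2 ∧ t 0 = t 4) ∨
    (t 0 = t 3 ∧ t 0 = t 4) ∨
    (t 1 = t 2 ∧ t 1 = t 3) ∨
    (t 1 = t 2 ∧ t 1 = t 4) ∨
    (t 1 = t 3 ∧ t 1 = t 4) ∨
    (t 2 = t 3 ∧ t 2 = t 4) := by
  cases t 0 <;> cases t 1 <;> cases t 2 <;> cases t 3 <;> cases t 4 <;> simp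

theorem mk_perm (t : Fin 5 → Bool) (v : Fin 5 → Fin 5) (hv : Function.Injective v)
    (h : t (v 0) = t (v 1) ∧ t (v 0) = t (v 2)) :
    ∃ σ : Equiv.Perm (Fin 5), t (σ 0) = t (σ 1) ∧ t (σ 0) = t (σ 2) :=
  ⟨Equiv.ofBijective v (Finite.injective_iff_bijective.1 hv), h⟩

theorem exists_perm (t : Fin 5 → Bool) :
    ∃ σ : Equiv.Perm (Fin 5), t (σ 0) = t (σ 1) ∧ t (σ 0) = t (σ 2) := by
  rcases pigeon t with h | h | h | h | h | h | h | h | h | h
  · exact mk_perm t ![0, 1, 2, 3, 4] (by decide) h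
  · exact mk_perm t ![0, 1, 3, 2, 4] (by decide) h
  · exact mk_perm t ![0, 1, 4, 2, 3] (by decide) h
  · exact mk_perm t ![0, 2, 3, 1, 4] (by decide) h
  · exact mk_perm t ![0, 2, 4, 1, 3] (by decide) h
  · exact mk_perm t ![0, 3, 4, 1, 2] (by decide) h
  · exact mk_perm t ![1, 2, 3, 0, 4] (by decide) h
  · exact mk_perm t ![1, 2, 4, 0, 3] (by decide) h
  · exact mk_perm t ![1, 3, 4, 0, 2] (by decide) h
  · exact mk_perm t ![2, 3, 4, 0, 1] (by decide) h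

/-! ### `p = 2` -/

theorem key (s l : ℤ) (hs : s % 4 = 0) (hl : l % 2 = 1) : ∃ y : ℤ, (s + l * y ^ 2) % 8 = 0 := by
  by_cases h : s % 8 = 0
  · exact ⟨0, by simpa using h⟩
  · refine ⟨2, ?_⟩
    omega

theorem comb (c : Fin 5 → ℤ) (h0 : c 0 % 2 = 1) (h1 : c 1 % 2 = 1) (h2 : c 2 % 2 = 1)
    (h3 : c 3 % 4 ≠ 0) (h4 : c 4 % 4 ≠ 0) : ∃ (y : Fin 5 → ℤ) (i : Fin 5), y i = 1 ∧
      c i % 2 = 1 ∧ (∑ l, c l * y l ^ 2) % 8 = 0 := by
  simp only [Fin.sum_univ_five]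
  by_cases h3' : c 3 % 2 = 0
  · have hp : c 0 % 4 = c 1 % 4 ∨ c 0 % 4 = c 2 % 4 ∨ c 1 % 4 = c 2 % 4 := by omega
    rcases hp with hp | hp | hp
    · obtain ⟨y, hy⟩ := key (c 0 + c 1 + c 3) (c 2) (by omega) h2
      refine ⟨![1, 1, y, 1, 0], 0, rfl, h0, (congrArg (· % 8) ?_).trans hy⟩
      simp
      ring
    · obtain ⟨y, hy⟩ := key (c 0 + c 2 + c 3) (c 1) (by omega) h1
      refine ⟨![1, y, 1, 1, 0], 0, rfl, h0, (congrArg (· % 8) ?_).trans hy⟩
      simp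
      ring
    · obtain ⟨y, hy⟩ := key (c 1 + c 2 + c 3) (c 0) (by omega) h0
      refine ⟨![y, 1, 1, 1, 0], 1, rfl, h1, (congrArg (· % 8) ?_).trans hy⟩
      simp
      ring
  by_cases h4' : c 4 % 2 = 0
  · have hp : c 0 % 4 = c 1 % 4 ∨ c 0 % 4 = c 2 % 4 ∨ c 1 % 4 = c 2 % 4 := by omega
    rcases hp with hp | hp | hp
    · obtain ⟨y, hy⟩ := key (c 0 + c 1 + c 4) (c 2) (by omega) h2
      refine ⟨![1, 1, y, 0, 1], 0, rfl, h0, (congrArg (· % 8) ?_).trans hy⟩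
      simp
      ring
    · obtain ⟨y, hy⟩ := key (c 0 + c 2 + c 4) (c 1) (by omega) h1
      refine ⟨![1, y, 1, 0, 1], 0, rfl, h0, (congrArg (· % 8) ?_).trans hy⟩
      simp
      ring
    · obtain ⟨y, hy⟩ := key (c 1 + c 2 + c 4) (c 0) (by omega) h0
      refine ⟨![y, 1, 1, 0, 1], 1, rfl, h1, (congrArg (· % 8) ?_).trans hy⟩
      simp
      ring
  by_cases e1 : (c 0 + c 1) % 4 = 0
  · obtain ⟨y, hy⟩ := key (c 0 + c 1) (c 2) (by omega) h2
    refine ⟨![1, 1, y, 0, 0], 0, rfl, h0, (congrArg (· % 8) ?_).trans hy⟩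
    simp
  by_cases e2 : (c 0 + c 2) % 4 = 0
  · obtain ⟨y, hy⟩ := key (c 0 + c 2) (c 1) (by omega) h1
    refine ⟨![1, y, 1, 0, 0], 0, rfl, h0, (congrArg (· % 8) ?_).trans hy⟩
    simp
    ring
  by_cases e3 : (c 0 + c 3) % 4 = 0
  · obtain ⟨y, hy⟩ := key (c 0 + c 3) (c 1) (by omega) h1
    refine ⟨![1, y, 0, 1, 0], 0, rfl, h0, (congrArg (· % 8) ?_).trans hy⟩
    simp
    ring
  by_cases e4 : (c 0 + c 4) % 4 = 0
  · obtain ⟨y, hy⟩ := key (c 0 + c 4) (c 1) (by omega) h1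
    refine ⟨![1, y, 0, 0, 1], 0, rfl, h0, (congrArg (· % 8) ?_).trans hy⟩
    simp
    ring
  · obtain ⟨y, hy⟩ := key (c 0 + c 1 + c 2 + c 3) (c 4) (by omega) (by omega)
    refine ⟨![1, 1, 1, 1, y], 0, rfl, h0, (congrArg (· % 8) ?_).trans hy⟩
    simp

theorem lift (c : Fin 5 → ℤ) (y : Fin 5 → ℤ) (i : Fin 5) (hy : y i = 1) (hc : c i % 2 = 1)
    (hs : (∑ l, c l * y l ^ 2) % 8 = 0) : IsoF (F := ℚ_[2]) fun l => (c l : ℚ_[2]) := by
  set n : ℤ := c i - ∑ l, c l * y l ^ 2 with hn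
  have h8 : c i % 8 = n % 8 := by omega
  obtain ⟨r, hr⟩ := Pool.Agent.W975.BMX.two1 (c i) n hc h8
  have hci : (c i : ℚ_[2]) ≠ 0 := by
    have : c i ≠ 0 := by
      intro h
      rw [h] at hc
      simp at hc
    exact_mod_cast this
  have hn0 : (n : ℚ_[2]) ≠ 0 := by
    have : n ≠ 0 := by
      intro h
      rw [h] at h8
      omega
    exact_mod_cast this
  push_cast at hr
  have hr0 : r ≠ 0 := by
    rintro rfl
    have : (c i : ℚ_[2]) * n ≠ 0 := mul_ne_zero hci hn0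
    exact this (by rw [hr]; ring)
  refine ⟨Function.update (fun l => (y l : ℚ_[2])) i (r / c i), ?_, ?_⟩
  · intro h
    have := congrFun h i
    simp only [Function.update_self, Pi.zero_apply, div_eq_zero_iff] at this
    rcases this with h | h
    · exact hr0 h
    · exact hci h
  · have e1 : ∑ l, (c l : ℚ_[2]) * (Function.update (fun l => (y l : ℚ_[2])) i (r / c i) l) ^ 2 =
        (c i : ℚ_[2]) * (r / c i) ^ 2 + ∑ l ∈ Finset.univ.erase i, (c l : ℚ_[2]) * (y l) ^ 2 := by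
      rw [← Finset.add_sum_erase _ _ (Finset.mem_univ i)]
      congr 1
      · simp
      · refine Finset.sum_congr rfl fun l hl => ?_
        rw [Function.update_of_ne (Finset.ne_of_mem_erase hl)]
    have e2 : ∑ l, (c l : ℚ_[2]) * (y l : ℚ_[2]) ^ 2 =
        (c i : ℚ_[2]) + ∑ l ∈ Finset.univ.erase i, (c l : ℚ_[2]) * (y l) ^ 2 := by
      rw [← Finset.add_sum_erase _ _ (Finset.mem_univ i), hy]
      simp
    have e3 : (n : ℚ_[2]) = (c i : ℚ_[2]) - ∑ l, (c l : ℚ_[2]) * (y l : ℚ_[2]) ^ 2 := by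
      rw [hn]
      push_cast
      rfl
    have e4 : (c i : ℚ_[2]) * (r / c i) ^ 2 = n := by
      field_simp
      linear_combination -hr
    rw [e1, e4, e3, e2]
    ring

theorem two_aux (t : Fin 5 → ℕ) (m : Fin 5 → ℤ) (ht : ∀ i, t i ≤ 1) (hm : ∀ i, ¬ (2 : ℤ) ∣ m i)
    (h0 : t 0 = 0) (h1 : t 1 = 0) (h2 : t 2 = 0) :
    IsoF (F := ℚ_[2]) fun i => ((2 ^ t i * m i : ℤ) : ℚ_[2]) := by
  have hodd : ∀ i, t i = 0 → (2 ^ t i * m i) % 2 = 1 := by
    intro i hi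
    have := hm i
    rw [hi]
    omega
  have h4 : ∀ i, (2 ^ t i * m i) % 4 ≠ 0 := by
    intro i
    have := hm i
    have h := ht i
    interval_cases h' : t i <;> omega
  obtain ⟨y, i, h1, h2, h3⟩ := comb (fun i => 2 ^ t i * m i) (hodd 0 h0) (hodd 1 h1) (hodd 2 h2)
    (h4 3) (h4 4)
  exact lift (fun i => 2 ^ t i * m i) y i h1 h2 h3

theorem two_main (t : Fin 5 → ℕ) (m : Fin 5 → ℤ) (ht : ∀ i, t i ≤ 1)
    (hm : ∀ i, ¬ (2 : ℤ) ∣ m i) :
    IsoF (F := ℚ_[2]) fun i => ((2 ^ t i * m i : ℤ) : ℚ_[2]) := by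
  obtain ⟨σ, e1, e2⟩ := exists_perm fun i => decide (t i = 0)
  simp only [decide_eq_decide] at e1 e2
  by_cases h0 : t (σ 0) = 0
  · refine iso_perm σ ?_
    exact two_aux (fun i => t (σ i)) (fun i => m (σ i)) (fun i => ht _) (fun i => hm _) h0
      (e1.1 h0) (e2.1 h0)
  · have h1 : t (σ 1) ≠ 0 := fun h => h0 (e1.2 h)
    have h2 : t (σ 2) ≠ 0 := fun h => h0 (e2.2 h)
    have a0 := ht (σ 0)
    have a1 := ht (σ 1)
    have a2 := ht (σ 2)
    have h := two_aux (fun i => 1 - t (σ i)) (fun i => m (σ i)) (fun i => by omega)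
      (fun i => hm _) (by omega) (by omega) (by omega)
    refine iso_perm σ (iso_mul (k := (2 : ℚ_[2])) (by norm_num) ?_)
    refine iso_scale (c := fun i => (2 : ℚ_[2]) ^ t (σ i)) (fun i => pow_ne_zero _ (by norm_num))
      ?_ h
    intro i
    have hi := ht (σ i)
    push_cast
    interval_cases h' : t (σ i)
    · ring
    · ring

/-! ### `p` odd -/

theorem odd_aux (p : ℕ) [Fact p.Prime] (hp : p ≠ 2) (t : Fin 5 → ℕ) (m : Fin 5 → ℤ)
    (hm : ∀ i, ¬ (p : ℤ) ∣ m i) (e1 : t 0 = t 1) (e2 : t 0 = t 2) :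
    IsoF (F := ℚ_[p]) fun i => ((p ^ t i * m i : ℤ) : ℚ_[p]) := by
  have hpr : Prime (p : ℤ) := Nat.prime_iff_prime_int.1 (Fact.out : p.Prime)
  have h02 : ¬ (p : ℤ) ∣ -(m 0 * m 2) := by
    rw [dvd_neg]
    intro h
    rcases hpr.dvd_or_dvd h with h | h
    · exact hm 0 h
    · exact hm 2 h
  have h12 : ¬ (p : ℤ) ∣ -(m 1 * m 2) := by
    rw [dvd_neg]
    intro h
    rcases hpr.dvd_or_dvd h with h | h
    · exact hm 1 h
    · exact hm 2 h
  obtain ⟨x, y, z, hne, he⟩ := Pool.Agent.W335.BMX.odd2 p hp _ _ h02 h12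
  push_cast at he
  have hm2 : (m 2 : ℚ_[p]) ≠ 0 := by
    have : m 2 ≠ 0 := by
      intro h
      exact hm 2 (by rw [h]; exact dvd_zero _)
    exact_mod_cast this
  refine ⟨![m 2 * x, m 2 * y, z, 0, 0], ?_, ?_⟩
  · intro h
    have h0 := congrFun h 0
    have h1 := congrFun h 1
    have h2 := congrFun h 2
    simp [hm2] at h0 h1 h2
    rcases hne with h | h | h
    · exact h h0
    · exact h h1
    · exact h h2
  · simp only [Fin.sum_univ_five]
    simp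
    rw [← e1, ← e2]
    linear_combination ((p : ℚ_[p]) ^ t 0 * m 2) * he

end Iso

open Iso

theorem iso_ : S_ISO := by
  intro p _ a ha
  have ha' : ∀ i, (a i : ℚ_[p]) ≠ 0 := fun i => by exact_mod_cast ha i
  choose t m c ht hm hc h using fun i => Pool.Agent.W310.BMX.odd4 p (a i : ℚ_[p]) (ha' i)
  have main : IsoF (F := ℚ_[p]) fun i => ((p ^ t i * m i : ℤ) : ℚ_[p]) := by
    by_cases hp : p = 2
    · subst hp
      exact two_main t m ht (fun i => by exact_mod_cast hm i)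
    · obtain ⟨σ, e1, e2⟩ := exists_perm fun i => decide (t i = 0)
      simp only [decide_eq_decide] at e1 e2
      refine iso_perm σ ?_
      refine odd_aux p hp (fun i => t (σ i)) (fun i => m (σ i)) (fun i => hm _) ?_ ?_
      · have := ht (σ 0)
        have := ht (σ 1)
        omega
      · have := ht (σ 0)
        have := ht (σ 2)
        omega
  obtain ⟨x, hx, hs⟩ := iso_scale (a := fun i => (a i : ℚ_[p])) hc h main
  exact ⟨x, hx, hs⟩

end Pool.Agent.R847.QB
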