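import Pool.Agent.R847.QB.Stm2

/-!
# The kernel of a matrix of constant rank is lower semicontinuous (project QB, part KER)
-/

set_option autoImplicit false

namespace Pool.Agent.R847.QB

open Matrix Filter Topology

theorem ker_exists_AB {N : ℕ} (M : Matrix (Fin N) (Fin N) ℝ) (r : ℕ) (hr : M.rank = r) :
    ∃ (A : Matrix (Fin r) (Fin N) ℝ) (B : Matrix (Fin N) (Fin r) ℝ), A * M * B = 1 := by
  let f := M.mulVecLin
  have hr : Module.finrank ℝ (LinearMap.range f) = r := hr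
  let b : Module.Basis (Fin r) ℝ (LinearMap.range f) := Module.finBasisOfFinrankEq _ _ hr
  have hu : ∀ i, ∃ u, f u = (b i : Fin N → ℝ) := fun i => (b i).2
  choose u hu using hu
  let B : (Fin r → ℝ) →ₗ[ℝ] (Fin N → ℝ) := (Pi.basisFun ℝ (Fin r)).constr ℝ u
  obtain ⟨A, hA⟩ := LinearMap.exists_extend (b.equivFun : LinearMap.range f →ₗ[ℝ] (Fin r → ℝ))
  have hAB : A ∘ₗ f ∘ₗ B = LinearMap.id := by
    refine (Pi.basisFun ℝ (Fin r)).ext ?_
    intro i
    rw [LinearMap.comp_apply, LinearMap.comp_apply, LinearMap.id_apply]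
    have h1 : B ((Pi.basisFun ℝ (Fin r)) i) = u i := (Pi.basisFun ℝ (Fin r)).constr_basis ℝ u i
    rw [h1, hu i]
    have h2 := LinearMap.congr_fun hA (b i)
    rw [LinearMap.comp_apply, Submodule.subtype_apply] at h2
    rw [h2]
    funext j
    simp [Finsupp.single_apply, Pi.single_apply, eq_comm]
  refine ⟨LinearMap.toMatrix' A, LinearMap.toMatrix' B, ?_⟩
  have h3 : LinearMap.toMatrix' f = M := LinearMap.toMatrix'_toLin' M
  rw [← h3, ← LinearMap.toMatrix'_comp, ← LinearMap.toMatrix'_comp, LinearMap.comp_assoc, hAB,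
    LinearMap.toMatrix'_id]

theorem ker_ : S_KER := by
  intro N M v hv ε hε
  obtain ⟨A, B, hAB⟩ := ker_exists_AB M _ rfl
  let D : (Fin N → Fin N → ℝ) → Matrix (Fin M.rank) (Fin M.rank) ℝ := fun X => A * Matrix.of X * B
  have hof : Continuous fun X : Fin N → Fin N → ℝ => (Matrix.of X : Matrix (Fin N) (Fin N) ℝ) :=
    continuous_id
  have hD : Continuous D := (continuous_const.matrix_mul hof).matrix_mul continuous_const
  have hdet : Continuous fun X => (D X).det := hD.matrix_det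
  have hadj : Continuous fun X => (D X).adjugate := hD.matrix_adjugate
  let g : (Fin N → Fin N → ℝ) → Fin N → ℝ := fun X =>
    v - ((D X).det)⁻¹ • (B *ᵥ ((D X).adjugate *ᵥ (A *ᵥ (Matrix.of X *ᵥ v))))
  have hDM : D M = 1 := hAB
  have hdM : (D M).det ≠ 0 := by rw [hDM, det_one]; exact one_ne_zero
  have hg : ContinuousAt g M := by
    refine continuousAt_const.sub (ContinuousAt.smul (hdet.continuousAt.inv₀ hdM) ?_)
    exact (continuous_const.matrix_mulVec (hadj.matrix_mulVec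
      (continuous_const.matrix_mulVec (hof.matrix_mulVec continuous_const)))).continuousAt
  have hgM : g M = v := by
    show v - ((D M).det)⁻¹ • (B *ᵥ ((D M).adjugate *ᵥ (A *ᵥ (M *ᵥ v)))) = v
    rw [hv]
    simp
  have h1 : ∀ᶠ X in 𝓝 (M : Fin N → Fin N → ℝ), (D X).det ≠ 0 :=
    hdet.continuousAt.eventually_ne hdM
  have h2 : ∀ᶠ X in 𝓝 (M : Fin N → Fin N → ℝ), dist (g X) (g M) < ε :=
    hg (Metric.ball_mem_nhds _ hε)
  obtain ⟨δ, hδ, h⟩ := Metric.eventually_nhds_iff.1 (h1.and h2)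
  refine ⟨δ, hδ, fun M' hM' hrank => ?_⟩
  have hd : dist (α := Fin N → Fin N → ℝ) M' M < δ := by
    rw [dist_pi_lt_iff hδ]
    intro i
    rw [dist_pi_lt_iff hδ]
    intro j
    rw [Real.dist_eq]
    exact hM' i j
  obtain ⟨h3, h4⟩ := h hd
  refine ⟨g M', ?_, ?_⟩
  · -- the image is zero
    have hD' : D M' = A * M' * B := rfl
    have hz : A *ᵥ (M' *ᵥ g M') = 0 := by
      show A *ᵥ (M' *ᵥ (v - ((D M').det)⁻¹ • (B *ᵥ ((D M').adjugate *ᵥ (A *ᵥ (M' *ᵥ v)))))) = 0
      rw [mulVec_sub, mulVec_sub, mulVec_smul, mulVec_smul]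
      have e : A *ᵥ (M' *ᵥ (B *ᵥ ((D M').adjugate *ᵥ (A *ᵥ (M' *ᵥ v)))))
          = (D M').det • (A *ᵥ (M' *ᵥ v)) := by
        have e1 : A *ᵥ (M' *ᵥ (B *ᵥ ((D M').adjugate *ᵥ (A *ᵥ (M' *ᵥ v)))))
            = (A * M' * B) *ᵥ ((D M').adjugate *ᵥ (A *ᵥ (M' *ᵥ v))) := by
          rw [mulVec_mulVec, mulVec_mulVec, Matrix.mul_assoc]
        rw [e1, ← hD', mulVec_mulVec, mul_adjugate, smul_mulVec, one_mulVec]
      rw [e, smul_smul, inv_mul_cancel₀ h3, one_smul, sub_self]
    -- injectivity of `A` on the range of `M'`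
    let f' := M'.mulVecLin
    let a : LinearMap.range f' →ₗ[ℝ] (Fin M.rank → ℝ) := A.mulVecLin.domRestrict _
    have hsurj : Function.Surjective a := by
      intro c
      have hc : (A * M' * B) *ᵥ ((D M').det⁻¹ • ((D M').adjugate *ᵥ c)) = c := by
        rw [← hD', mulVec_smul, mulVec_mulVec, mul_adjugate, smul_mulVec, one_mulVec, smul_smul,
          inv_mul_cancel₀ h3, one_smul]
      refine ⟨⟨M' *ᵥ (B *ᵥ ((D M').det⁻¹ • ((D M').adjugate *ᵥ c))), ⟨_, rfl⟩⟩, ?_⟩
      show A *ᵥ (M' *ᵥ (B *ᵥ ((D M').det⁻¹ • ((D M').adjugate *ᵥ c)))) = c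
      rw [mulVec_mulVec, mulVec_mulVec, hc]
    have hfr : Module.finrank ℝ (LinearMap.range f') = Module.finrank ℝ (Fin M.rank → ℝ) := by
      apply le_antisymm
      · rw [Module.finrank_fin_fun]
        exact hrank
      · exact LinearMap.finrank_le_finrank_of_surjective hsurj
    have hinj : Function.Injective a :=
      (LinearMap.injective_iff_surjective_of_finrank_eq_finrank hfr).2 hsurj
    have hmem : M' *ᵥ g M' ∈ LinearMap.range f' := ⟨_, rfl⟩
    have h0 : a ⟨M' *ᵥ g M', hmem⟩ = a 0 := by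
      rw [map_zero]
      exact hz
    have h5 := hinj h0
    exact congrArg Subtype.val h5
  · intro i
    rw [hgM] at h4
    have := (dist_pi_lt_iff hε).1 h4 i
    rwa [Real.dist_eq] at this

end Pool.Agent.R847.QB
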