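import Mathlib
import Pool.Agent.R847.QB.Stm
import Pool.Agent.W313.BMX.Alg

/-!
# Binary forms and the symbol `Splits`; five variables
-/

set_option autoImplicit false

namespace Pool.Agent.R847.QB

open Pool.Agent.W313.BMX (Splits splits_swap splits_comm splits_mul_sq splits_neg_mul)

variable {F : Type} [Field F]

/-- a value of a binary form gives a split symbol -/
theorem splits_of_rep {a b c x y : F} (h : a * x ^ 2 + b * y ^ 2 = c) :
    Splits (-(a * b)) (a * c) := by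
  refine ⟨y, 1, a * x, Or.inr (Or.inl one_ne_zero), ?_⟩
  rw [← h]
  ring

/-- a split symbol gives a value of a binary form -/
theorem rep_of_splits [CharZero F] {a b c : F} (ha : a ≠ 0) (hb : b ≠ 0)
    (h : Splits (-(a * b)) (a * c)) : ∃ x y : F, a * x ^ 2 + b * y ^ 2 = c := by
  obtain ⟨u, v, z, h0, h1⟩ := h
  by_cases hv : v = 0
  · subst hv
    have hu : u ≠ 0 := by
      rintro rfl
      have hz : z ^ 2 = 0 := by rw [h1]; ring
      have hz0 : z = 0 := pow_eq_zero_iff two_ne_zero |>.1 hz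
      rcases h0 with h | h | h
      · exact h rfl
      · exact h rfl
      · exact h hz0
    have hz : z ≠ 0 := by
      rintro rfl
      have h2 : a * b * u ^ 2 = 0 := by
        have : (0 : F) ^ 2 = -(a * b) * u ^ 2 + a * c * 0 ^ 2 := h1
        linear_combination this
      exact mul_ne_zero (mul_ne_zero ha hb) (pow_ne_zero 2 hu) h2
    have h2 : z ^ 2 = -(a * b) * u ^ 2 := by rw [h1]; ring
    -- `b = -(t ^ 2) / a` with `t = z / u`
    refine ⟨(1 + a * c) / (2 * a), (a * c - 1) * u / (2 * z), ?_⟩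
    have h22 : (2 : F) ≠ 0 := two_ne_zero
    field_simp
    linear_combination (a * c - 1) ^ 2 * h2
  · refine ⟨z / (a * v), u / v, ?_⟩
    field_simp
    linear_combination h1

/-- from an isotropic vector to the two partial values -/
theorem split5 [CharZero F] (a : Fin 5 → F) (ha : ∀ i, a i ≠ 0)
    (h : ∃ x : Fin 5 → F, x ≠ 0 ∧ ∑ i, a i * x i ^ 2 = 0) :
    ∃ c d : F, c ≠ 0 ∧ d ≠ 0 ∧ Splits (-(a 0 * a 1)) (a 0 * c) ∧
      Splits (-(a 3 * a 4)) (-(a 3 * d)) ∧ Splits (-(c * a 2)) (a 2 * d) := by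
  -- it is enough to find `x`
  have key : ∀ x0 x1 x2 x3 x4 : F, a 0 * x0 ^ 2 + a 1 * x1 ^ 2 ≠ 0 →
      a 3 * x3 ^ 2 + a 4 * x4 ^ 2 ≠ 0 →
      (a 0 * x0 ^ 2 + a 1 * x1 ^ 2) + a 2 * x2 ^ 2 + (a 3 * x3 ^ 2 + a 4 * x4 ^ 2) = 0 →
      ∃ c d : F, c ≠ 0 ∧ d ≠ 0 ∧ Splits (-(a 0 * a 1)) (a 0 * c) ∧
        Splits (-(a 3 * a 4)) (-(a 3 * d)) ∧ Splits (-(c * a 2)) (a 2 * d) := by
    intro x0 x1 x2 x3 x4 h1 h2 h3
    refine ⟨a 0 * x0 ^ 2 + a 1 * x1 ^ 2, -(a 3 * x3 ^ 2 + a 4 * x4 ^ 2), h1, neg_ne_zero.2 h2,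
      splits_of_rep rfl, ?_, ?_⟩
    · have := splits_of_rep (b := a 4) (x := x3) (y := x4) (a := a 3) rfl
      rw [show -(a 3 * -(a 3 * x3 ^ 2 + a 4 * x4 ^ 2)) = a 3 * (a 3 * x3 ^ 2 + a 4 * x4 ^ 2) by ring]
      exact this
    · have := splits_of_rep (a := a 2) (b := a 0 * x0 ^ 2 + a 1 * x1 ^ 2) (x := x2) (y := 1)
        (c := -(a 3 * x3 ^ 2 + a 4 * x4 ^ 2)) (by linear_combination h3)
      rw [mul_comm (a 2) (a 0 * x0 ^ 2 + a 1 * x1 ^ 2)] at this
      exact this
  -- isotropic binary forms are universal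
  have univ : ∀ {α β x y : F}, α ≠ 0 → β ≠ 0 → (x ≠ 0 ∨ y ≠ 0) → α * x ^ 2 + β * y ^ 2 = 0 →
      ∀ c : F, ∃ x' y' : F, α * x' ^ 2 + β * y' ^ 2 = c := by
    intro α β x y hα hβ hxy h0 c
    refine rep_of_splits hα hβ ⟨y, 0, α * x, ?_, ?_⟩
    · rcases hxy with h | h
      · exact Or.inr (Or.inr (mul_ne_zero hα h))
      · exact Or.inl h
    · linear_combination α * h0
  -- differences of squares
  have diff : ∀ m : F, m ≠ 0 → ∃ u z : F, u ≠ 0 ∧ u ^ 2 - z ^ 2 = m := by
    intro m hm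
    have h22 : (2 : F) ≠ 0 := two_ne_zero
    have h44 : (4 : F) ≠ 0 := by norm_num
    by_cases hm1 : m = -1
    · refine ⟨3 / 4, 5 / 4, ?_, ?_⟩
      · exact div_ne_zero (by norm_num) h44
      · rw [hm1]; norm_num
    · refine ⟨(m + 1) / 2, (m - 1) / 2, ?_, by field_simp; ring⟩
      refine div_ne_zero ?_ h22
      intro h
      exact hm1 (by linear_combination h)
  obtain ⟨x, hx, hs⟩ := h
  rw [Fin.sum_univ_five] at hs
  by_cases hc : a 0 * x 0 ^ 2 + a 1 * x 1 ^ 2 = 0
  · by_cases h01 : x 0 ≠ 0 ∨ x 1 ≠ 0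
    · -- the first binary form is universal
      obtain ⟨u, v, huv⟩ := univ (ha 0) (ha 1) h01 hc (-(a 3))
      refine key u v 0 1 0 ?_ ?_ ?_
      · rw [huv]; exact neg_ne_zero.2 (ha 3)
      · simpa using ha 3
      · rw [huv]; ring
    · push Not at h01
      by_cases h2 : x 2 = 0
      · -- the second binary form is isotropic
        have h34 : x 3 ≠ 0 ∨ x 4 ≠ 0 := by
          by_contra hcon
          push Not at hcon
          apply hx
          funext i
          fin_cases i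
          · exact h01.1
          · exact h01.2
          · exact h2
          · exact hcon.1
          · exact hcon.2
        have h5 : a 3 * x 3 ^ 2 + a 4 * x 4 ^ 2 = 0 := by
          rw [h2] at hs
          linear_combination hs - hc
        obtain ⟨u, v, huv⟩ := univ (ha 3) (ha 4) h34 h5 (-(a 0))
        refine key 1 0 0 u v ?_ ?_ ?_
        · simpa using ha 0
        · rw [huv]; exact neg_ne_zero.2 (ha 0)
        · rw [huv]; ring
      · -- `-(a 2)` is a value of the second binary form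
        obtain ⟨u, z, hu, huz⟩ := diff (a 0 / a 2) (div_ne_zero (ha 0) (ha 2))
        have e1 : a 2 * (u ^ 2 - z ^ 2) = a 0 := by rw [huz]; exact mul_div_cancel₀ _ (ha 2)
        have e2 : a 3 * x 3 ^ 2 + a 4 * x 4 ^ 2 = -(a 2 * x 2 ^ 2) := by linear_combination hs - hc
        have e3 : a 3 * (u * x 3 / x 2) ^ 2 + a 4 * (u * x 4 / x 2) ^ 2 = -(a 2 * u ^ 2) := by
          field_simp
          linear_combination e2
        refine key 1 0 z (u * x 3 / x 2) (u * x 4 / x 2) ?_ ?_ ?_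
        · simpa using ha 0
        · rw [e3]
          exact neg_ne_zero.2 (mul_ne_zero (ha 2) (pow_ne_zero 2 hu))
        · rw [e3]
          linear_combination -e1
  · by_cases he : a 3 * x 3 ^ 2 + a 4 * x 4 ^ 2 = 0
    · by_cases h34 : x 3 ≠ 0 ∨ x 4 ≠ 0
      · obtain ⟨u, v, huv⟩ := univ (ha 3) (ha 4) h34 he (-(a 0))
        refine key 1 0 0 u v ?_ ?_ ?_
        · simpa using ha 0
        · rw [huv]; exact neg_ne_zero.2 (ha 0)
        · rw [huv]; ring
      · push Not at h34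
        have h2 : x 2 ≠ 0 := by
          intro h2
          apply hc
          rw [h2] at hs
          linear_combination hs - he
        obtain ⟨u, z, hu, huz⟩ := diff (a 3 / a 2) (div_ne_zero (ha 3) (ha 2))
        have e1 : a 2 * (u ^ 2 - z ^ 2) = a 3 := by rw [huz]; exact mul_div_cancel₀ _ (ha 2)
        have e2 : a 0 * x 0 ^ 2 + a 1 * x 1 ^ 2 = -(a 2 * x 2 ^ 2) := by linear_combination hs - he
        have e3 : a 0 * (u * x 0 / x 2) ^ 2 + a 1 * (u * x 1 / x 2) ^ 2 = -(a 2 * u ^ 2) := by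
          field_simp
          linear_combination e2
        refine key (u * x 0 / x 2) (u * x 1 / x 2) z 1 0 ?_ ?_ ?_
        · rw [e3]
          exact neg_ne_zero.2 (mul_ne_zero (ha 2) (pow_ne_zero 2 hu))
        · simpa using ha 3
        · rw [e3]
          linear_combination -e1
    · exact key (x 0) (x 1) (x 2) (x 3) (x 4) hc he (by linear_combination hs)

/-- from the two partial values to an isotropic vector -/
theorem glue5 [CharZero F] (a : Fin 5 → F) (ha : ∀ i, a i ≠ 0) {c d : F} (hc : c ≠ 0) (hd : d ≠ 0)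
    (h1 : Splits (-(a 0 * a 1)) (a 0 * c)) (h2 : Splits (-(a 3 * a 4)) (-(a 3 * d)))
    (h3 : Splits (-(c * a 2)) (a 2 * d)) :
    ∃ x : Fin 5 → F, x ≠ 0 ∧ ∑ i, a i * x i ^ 2 = 0 := by
  obtain ⟨x0, x1, e1⟩ := rep_of_splits (ha 0) (ha 1) h1
  obtain ⟨x3, x4, e2⟩ := rep_of_splits (c := -d) (ha 3) (ha 4) (by
    rw [show a 3 * -d = -(a 3 * d) by ring]; exact h2)
  obtain ⟨z, w, e3⟩ := rep_of_splits (a := a 2) (b := c) (c := d) (ha 2) hc (by
    rw [mul_comm (a 2) c]; exact h3)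
  refine ⟨![x0 * w, x1 * w, z, x3, x4], ?_, ?_⟩
  · intro h
    have h3' : x3 = 0 := congrFun h 3
    have h4' : x4 = 0 := congrFun h 4
    rw [h3', h4'] at e2
    apply hd
    linear_combination e2
  · rw [Fin.sum_univ_five]
    simp only [Matrix.cons_val_zero, Matrix.cons_val_one, Matrix.cons_val]
    linear_combination w ^ 2 * e1 + e2 + e3

end Pool.Agent.R847.QB
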