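import Mathlib
import Pool.Agent.R847.QB.Glue
import Pool.Agent.W174.HB.HM
import Pool.Agent.W351.HB.PF
import Pool.Agent.W215.HB.Bilo
import Pool.Agent.W864.HB.Bilt
import Pool.Agent.W335.BMX.Odd
import Pool.Agent.W310.BMX.Rep

/-!
# The theorem of Meyer
-/

set_option autoImplicit false

namespace Pool.Agent.R847.QB

open Pool.Agent.W313.BMX (Splits splits_swap splits_comm splits_mul_sq splits_neg_mul)

instance fPr (p : Nat.Primes) : Fact (p : ℕ).Prime := ⟨p.2⟩

/-- the product formula -/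
theorem pf1 : Pool.Agent.W313.HB.S_PF :=
  Pool.Agent.W351.HB.PF.pf_ Pool.Agent.W215.HB.bilo_ Pool.Agent.W864.HBm.bilt_

/-- changing an entry by a square class -/
theorem splits_class {F : Type} [Field F] {a b c : F} (hb : b ≠ 0) (hc : c ≠ 0)
    (hsq : IsSquare (b * c)) : Splits a b ↔ Splits a c := by
  obtain ⟨r, hr⟩ := hsq
  have hr0 : r ≠ 0 := by
    rintro rfl
    rw [mul_zero] at hr
    exact mul_ne_zero hb hc hr
  have e : b = c * (r / c) ^ 2 := by
    field_simp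
    linear_combination hr
  rw [splits_comm, e, splits_mul_sq (div_ne_zero hr0 hc), splits_comm]

/-- every nonzero `p`-adic number is an integer times a square -/
theorem exists_int_class (p : ℕ) [Fact p.Prime] (c : ℚ_[p]) (hc : c ≠ 0) :
    ∃ g : ℤ, g ≠ 0 ∧ IsSquare (c * (g : ℚ_[p])) := by
  obtain ⟨t, m, r, -, hm, hr, he⟩ := Pool.Agent.W310.BMX.odd4 p c hc
  have hg : ((p : ℤ) ^ t * m) ≠ 0 := by
    refine mul_ne_zero (pow_ne_zero _ ?_) ?_
    · exact_mod_cast (Fact.out : p.Prime).ne_zero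
    · rintro rfl
      exact hm (dvd_zero _)
  refine ⟨(p : ℤ) ^ t * m, hg, ⟨((p ^ t * m : ℤ) : ℚ_[p]) * r, ?_⟩⟩
  conv_lhs => rw [he]
  push_cast
  ring

/-- real numbers: the symbol depends on the signs only -/
theorem splits_real_iff {a b : ℝ} (ha : a ≠ 0) (hb : b ≠ 0) : Splits a b ↔ (0 < a ∨ 0 < b) := by
  constructor
  · rintro ⟨x, y, z, h0, h1⟩
    by_contra hcon
    push Not at hcon
    have ha' : a < 0 := lt_of_le_of_ne hcon.1 ha
    have hb' : b < 0 := lt_of_le_of_ne hcon.2 hb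
    have hx : x = 0 := by
      by_contra hx
      have := sq_pos_of_ne_zero hx
      nlinarith [sq_nonneg z, sq_nonneg y]
    have hy : y = 0 := by
      by_contra hy
      have := sq_pos_of_ne_zero hy
      nlinarith [sq_nonneg z, sq_nonneg x]
    have hz : z = 0 := by
      rw [hx, hy] at h1
      have : z ^ 2 = 0 := by rw [h1]; ring
      exact pow_eq_zero_iff two_ne_zero |>.1 this
    rcases h0 with h | h | h
    · exact h hx
    · exact h hy
    · exact h hz
  · rintro (h | h)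
    · exact ⟨1, 0, Real.sqrt a, Or.inl one_ne_zero, by rw [Real.sq_sqrt h.le]; ring⟩
    · exact ⟨0, 1, Real.sqrt b, Or.inr (Or.inl one_ne_zero), by rw [Real.sq_sqrt h.le]; ring⟩

/-- A symbol over `ℚ` which splits at the real place and at all primes but one splits. -/
theorem global {a b : ℤ} (ha : a ≠ 0) (hb : b ≠ 0) (q : Nat.Primes)
    (hr : Splits (a : ℝ) (b : ℝ))
    (hp : ∀ p : Nat.Primes, p ≠ q → Splits (a : ℚ_[(p : ℕ)]) (b : ℚ_[(p : ℕ)])) :
    Splits (a : ℚ) (b : ℚ) := by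
  have h1 : ∀ (p : ℕ) [Fact p.Prime], p ≠ (q : ℕ) → Splits (a : ℚ_[p]) (b : ℚ_[p]) := by
    intro p hpr hne
    have h := hp ⟨p, hpr.out⟩ (fun h => hne (congrArg Subtype.val h))
    exact h
  have hq := pf1 a b ha hb (q : ℕ) hr h1
  refine Pool.Agent.W174.HB.hm_ a b ha hb hr ?_
  intro p hpr
  by_cases h : p = (q : ℕ)
  · subst h
    exact hq
  · exact h1 p h

/-- units at an odd prime -/
theorem splits_units {p : ℕ} [Fact p.Prime] (hp2 : p ≠ 2) {a b : ℤ} (ha : ¬ (p : ℤ) ∣ a)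
    (hb : ¬ (p : ℤ) ∣ b) : Splits (a : ℚ_[p]) (b : ℚ_[p]) :=
  Pool.Agent.W335.BMX.odd2 p hp2 a b ha hb

/-- **The theorem of Meyer** for diagonal forms. -/
theorem meyer (hiso : S_ISO) (hdir : S_DIR) : S_MEY := by
  classical
  intro a ha hpos hneg
  -- the bad primes
  set P : ℤ := 2 * (a 0 * a 1 * a 2 * a 3 * a 4) with hP
  have hP0 : P ≠ 0 := by
    rw [hP]
    exact mul_ne_zero two_ne_zero (mul_ne_zero (mul_ne_zero (mul_ne_zero (mul_ne_zero (ha 0) (ha 1))
      (ha 2)) (ha 3)) (ha 4))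
  have hfin : {p : Nat.Primes | ((p : ℕ) : ℤ) ∣ P}.Finite := by
    refine Set.Finite.of_finite_image (f := fun p : Nat.Primes => (p : ℕ)) ?_
      (fun _ _ _ _ h => Subtype.ext h)
    refine (Set.finite_le_nat P.natAbs).subset ?_
    rintro _ ⟨p, hp, rfl⟩
    have h1 : (p : ℕ) ∣ P.natAbs := Int.natCast_dvd.1 hp
    exact Nat.le_of_dvd (Int.natAbs_pos.2 hP0) h1
  set T : Finset Nat.Primes := hfin.toFinset with hT
  have hnT : ∀ p : Nat.Primes, p ∉ T → ¬ ((p : ℕ) : ℤ) ∣ P := by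
    intro p hp h
    exact hp ((Set.Finite.mem_toFinset hfin).2 h)
  have hTa : ∀ p : Nat.Primes, p ∉ T → (p : ℕ) ≠ 2 ∧ ∀ i, ¬ ((p : ℕ) : ℤ) ∣ a i := by
    intro p hp
    have h := hnT p hp
    refine ⟨fun h2 => h ?_, fun i hi => h ?_⟩
    · rw [h2, hP]; exact Dvd.intro _ rfl
    · rw [hP]
      refine Dvd.dvd.mul_left ?_ _
      fin_cases i
      · exact (((hi.mul_right _).mul_right _).mul_right _).mul_right _
      · exact (((hi.mul_left _).mul_right _).mul_right _).mul_right _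
      · exact ((hi.mul_left _).mul_right _).mul_right _
      · exact (hi.mul_left _).mul_right _
      · exact hi.mul_left _
  have cast0 : ∀ (p : Nat.Primes) (i : Fin 5), ((a i : ℤ) : ℚ_[(p : ℕ)]) ≠ 0 := fun p i =>
    Int.cast_ne_zero.2 (ha i)
  -- the local values
  have hloc : ∀ p : Nat.Primes, ∃ c d : ℤ, c ≠ 0 ∧ d ≠ 0 ∧
      Splits (-((a 0 : ℚ_[(p : ℕ)]) * a 1)) ((a 0 : ℚ_[(p : ℕ)]) * c) ∧
      Splits (-((a 3 : ℚ_[(p : ℕ)]) * a 4)) (-((a 3 : ℚ_[(p : ℕ)]) * d)) ∧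
      Splits (-((c : ℚ_[(p : ℕ)]) * a 2)) ((a 2 : ℚ_[(p : ℕ)]) * d) := by
    intro p
    obtain ⟨c, d, hc, hd, h1, h2, h3⟩ := split5 (fun i => ((a i : ℤ) : ℚ_[(p : ℕ)]))
      (cast0 p) (hiso (p : ℕ) a ha)
    obtain ⟨c', hc', hcc⟩ := exists_int_class (p : ℕ) c hc
    obtain ⟨d', hd', hdd⟩ := exists_int_class (p : ℕ) d hd
    have k1 : ((c' : ℤ) : ℚ_[(p : ℕ)]) ≠ 0 := Int.cast_ne_zero.2 hc'
    have k2 : ((d' : ℤ) : ℚ_[(p : ℕ)]) ≠ 0 := Int.cast_ne_zero.2 hd'
    have sqm : ∀ {x y z : ℚ_[(p : ℕ)]}, IsSquare (y * z) → IsSquare ((x * y) * (x * z)) := by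
      rintro x y z ⟨r, hr⟩
      exact ⟨x * r, by linear_combination x ^ 2 * hr⟩
    have sqm' : ∀ {x y z : ℚ_[(p : ℕ)]}, IsSquare (y * z) → IsSquare ((-(x * y)) * (-(x * z))) := by
      rintro x y z ⟨r, hr⟩
      exact ⟨x * r, by linear_combination x ^ 2 * hr⟩
    have sqm'' : ∀ {x y z : ℚ_[(p : ℕ)]}, IsSquare (y * z) → IsSquare ((-(y * x)) * (-(z * x))) := by
      rintro x y z ⟨r, hr⟩
      exact ⟨x * r, by linear_combination x ^ 2 * hr⟩
    refine ⟨c', d', hc', hd', ?_, ?_, ?_⟩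
    · exact (splits_class (mul_ne_zero (cast0 p 0) hc) (mul_ne_zero (cast0 p 0) k1) (sqm hcc)).1 h1
    · exact (splits_class (neg_ne_zero.2 (mul_ne_zero (cast0 p 3) hd))
        (neg_ne_zero.2 (mul_ne_zero (cast0 p 3) k2)) (sqm' hdd)).1 h2
    · have h4 := (splits_class (mul_ne_zero (cast0 p 2) hd) (mul_ne_zero (cast0 p 2) k2)
        (sqm hdd)).1 h3
      rw [splits_comm] at h4 ⊢
      exact (splits_class (neg_ne_zero.2 (mul_ne_zero hc (cast0 p 2)))
        (neg_ne_zero.2 (mul_ne_zero k1 (cast0 p 2))) (sqm'' hcc)).1 h4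
  choose gc gd hgc hgd L1 L2 L3 using hloc
  -- the real values
  have hreal : ∃ sc sd : ℤ, (sc = 1 ∨ sc = -1) ∧ (sd = 1 ∨ sd = -1) ∧
      (0 < -(a 0 * a 1) ∨ 0 < a 0 * sc) ∧ (0 < -(a 3 * a 4) ∨ 0 < -(a 3 * sd)) ∧
      (0 < -(sc * a 2) ∨ 0 < a 2 * sd) := by
    obtain ⟨i, hi⟩ := hpos
    obtain ⟨j, hj⟩ := hneg
    have sg : ∀ k, 0 < a k ∨ a k < 0 := fun k => (lt_or_gt_of_ne (ha k)).symm
    have pp : ∀ {x y : ℤ}, 0 < x → 0 < y → 0 < x * y := fun h1 h2 => mul_pos h1 h2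
    have pn : ∀ {x y : ℤ}, 0 < x → y < 0 → 0 < -(x * y) := fun h1 h2 => by nlinarith
    have np : ∀ {x y : ℤ}, x < 0 → 0 < y → 0 < -(x * y) := fun h1 h2 => by nlinarith
    rcases sg 0 with h0 | h0 <;> rcases sg 1 with h1 | h1 <;> rcases sg 2 with h2 | h2 <;>
      rcases sg 3 with h3 | h3 <;> rcases sg 4 with h4 | h4
    all_goals first
      | (exfalso; fin_cases i <;> fin_cases j <;> simp at hi hj <;> omega)
      | (refine ⟨1, 1, Or.inl rfl, Or.inl rfl, ?_, ?_, ?_⟩ <;>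
          first
            | (left; first | exact pn (by assumption) (by assumption) | exact np (by assumption) (by assumption) | (simp; omega))
            | (right; first | (simp; omega)))
      | (refine ⟨1, -1, Or.inl rfl, Or.inr rfl, ?_, ?_, ?_⟩ <;>
          first
            | (left; first | exact pn (by assumption) (by assumption) | exact np (by assumption) (by assumption) | (simp; omega))
            | (right; first | (simp; omega)))
      | (refine ⟨-1, 1, Or.inr rfl, Or.inl rfl, ?_, ?_, ?_⟩ <;>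
          first
            | (left; first | exact pn (by assumption) (by assumption) | exact np (by assumption) (by assumption) | (simp; omega))
            | (right; first | (simp; omega)))
      | (refine ⟨-1, -1, Or.inr rfl, Or.inr rfl, ?_, ?_, ?_⟩ <;>
          first
            | (left; first | exact pn (by assumption) (by assumption) | exact np (by assumption) (by assumption) | (simp; omega))
            | (right; first | (simp; omega)))
  obtain ⟨sc, sd, hsc, hsd, R1, R2, R3⟩ := hreal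
  -- the first value
  obtain ⟨c, q, hq, hcs, hcT, hcn⟩ := hdir T gc sc hsc hgc
  have hc0 : c ≠ 0 := by rintro rfl; simp at hcs
  have hcne : ∀ p : Nat.Primes, ((c : ℤ) : ℚ_[(p : ℕ)]) ≠ 0 := fun p => Int.cast_ne_zero.2 hc0
  have hgcne : ∀ p : Nat.Primes, ((gc p : ℤ) : ℚ_[(p : ℕ)]) ≠ 0 := fun p =>
    Int.cast_ne_zero.2 (hgc p)
  have hgdne : ∀ p : Nat.Primes, ((gd p : ℤ) : ℚ_[(p : ℕ)]) ≠ 0 := fun p =>
    Int.cast_ne_zero.2 (hgd p)
  have hprime : ∀ (p : Nat.Primes) {x y : ℤ}, ¬ ((p : ℕ) : ℤ) ∣ x → ¬ ((p : ℕ) : ℤ) ∣ y →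
      ¬ ((p : ℕ) : ℤ) ∣ x * y := by
    intro p x y hx hy h
    rcases (Nat.prime_iff_prime_int.1 p.2).dvd_or_dvd h with h | h
    · exact hx h
    · exact hy h
  have hnegd : ∀ (p : Nat.Primes) {x : ℤ}, ¬ ((p : ℕ) : ℤ) ∣ x → ¬ ((p : ℕ) : ℤ) ∣ -x :=
    fun p x hx h => hx (dvd_neg.1 h)
  have sgn : ∀ {x s : ℤ}, 0 < x * s → (s = 1 ∨ s = -1) → ∀ b : ℤ, 0 < b * s → 0 < b * x := by
    rintro x s h1 (rfl | rfl) b h2
    · simp at h1 h2
      exact mul_pos h2 h1
    · simp at h1 h2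
      exact mul_pos_of_neg_of_neg h2 h1
  have S1 : Splits ((-(a 0 * a 1) : ℤ) : ℚ) ((a 0 * c : ℤ) : ℚ) := by
    refine global (neg_ne_zero.2 (mul_ne_zero (ha 0) (ha 1))) (mul_ne_zero (ha 0) hc0) q ?_ ?_
    · rw [splits_real_iff]
      · rcases R1 with h | h
        · exact Or.inl (by exact_mod_cast h)
        · exact Or.inr (by exact_mod_cast sgn hcs hsc (a 0) h)
      · exact_mod_cast neg_ne_zero.2 (mul_ne_zero (ha 0) (ha 1))
      · exact_mod_cast mul_ne_zero (ha 0) hc0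
    · intro p hpq
      by_cases hpT : p ∈ T
      · have h := hcT p hpT
        push_cast at h ⊢
        refine (splits_class (mul_ne_zero (cast0 p 0) (hcne p)) (mul_ne_zero (cast0 p 0) (hgcne p))
          ?_).2 (L1 p)
        obtain ⟨r, hr⟩ := h
        exact ⟨a 0 * r, by linear_combination (a 0 : ℚ_[(p : ℕ)]) ^ 2 * hr⟩
      · obtain ⟨k1, k2⟩ := hTa p hpT
        exact splits_units k1 (hnegd p (hprime p (k2 0) (k2 1))) (hprime p (k2 0) (hcn p hpT hpq))
  -- the second value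
  obtain ⟨d, q', hq', hds, hdT, hdn⟩ := hdir (insert q T) (fun p => if p = q then a 2 else gd p) sd
    hsd (by
      intro p
      by_cases h : p = q
      · simp only [h, if_true]; exact ha 2
      · simp only [h, if_false]; exact hgd p)
  have hd0 : d ≠ 0 := by rintro rfl; simp at hds
  have hdne : ∀ p : Nat.Primes, ((d : ℤ) : ℚ_[(p : ℕ)]) ≠ 0 := fun p => Int.cast_ne_zero.2 hd0
  have dT : ∀ p ∈ T, IsSquare (((d : ℤ) : ℚ_[(p : ℕ)]) * ((gd p : ℤ) : ℚ_[(p : ℕ)])) := by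
    intro p hp
    have h := hdT p (Finset.mem_insert_of_mem hp)
    have hpq : p ≠ q := fun h => hq (h ▸ hp)
    rw [if_neg hpq] at h
    push_cast at h
    exact h
  have dq : IsSquare (((d : ℤ) : ℚ_[(q : ℕ)]) * ((a 2 : ℤ) : ℚ_[(q : ℕ)])) := by
    have h := hdT q (Finset.mem_insert_self _ _)
    rw [if_pos rfl] at h
    push_cast at h
    exact h
  have S2 : Splits ((-(a 3 * a 4) : ℤ) : ℚ) ((-(a 3 * d) : ℤ) : ℚ) := by
    refine global (neg_ne_zero.2 (mul_ne_zero (ha 3) (ha 4)))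
      (neg_ne_zero.2 (mul_ne_zero (ha 3) hd0)) q' ?_ ?_
    · rw [splits_real_iff]
      · rcases R2 with h | h
        · exact Or.inl (by exact_mod_cast h)
        · have h' : 0 < (-a 3) * sd := by linarith
          have := sgn hds hsd (-a 3) h'
          exact Or.inr (by
            have h2 : 0 < -(a 3 * d) := by linarith
            exact_mod_cast h2)
      · exact_mod_cast neg_ne_zero.2 (mul_ne_zero (ha 3) (ha 4))
      · exact_mod_cast neg_ne_zero.2 (mul_ne_zero (ha 3) hd0)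
    · intro p hpq
      by_cases hpT : p ∈ T
      · have h := dT p hpT
        push_cast
        refine (splits_class (neg_ne_zero.2 (mul_ne_zero (cast0 p 3) (hdne p)))
          (neg_ne_zero.2 (mul_ne_zero (cast0 p 3) (hgdne p))) ?_).2 (L2 p)
        obtain ⟨r, hr⟩ := h
        exact ⟨a 3 * r, by linear_combination (a 3 : ℚ_[(p : ℕ)]) ^ 2 * hr⟩
      · obtain ⟨k1, k2⟩ := hTa p hpT
        by_cases hpq2 : p = q
        · subst hpq2
          have h3 : Splits (((-(a 3 * a 4) : ℤ)) : ℚ_[(p : ℕ)]) (((-(a 3 * a 2) : ℤ)) : ℚ_[(p : ℕ)]) :=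
            splits_units k1 (hnegd p (hprime p (k2 3) (k2 4))) (hnegd p (hprime p (k2 3) (k2 2)))
          push_cast at h3 ⊢
          refine (splits_class (neg_ne_zero.2 (mul_ne_zero (cast0 p 3) (hdne p)))
            (neg_ne_zero.2 (mul_ne_zero (cast0 p 3) (cast0 p 2))) ?_).2 h3
          obtain ⟨r, hr⟩ := dq
          exact ⟨a 3 * r, by linear_combination (a 3 : ℚ_[(p : ℕ)]) ^ 2 * hr⟩
        · have hdnp : ¬ ((p : ℕ) : ℤ) ∣ d := hdn p (by simp [hpT, hpq2]) hpq
          exact splits_units k1 (hnegd p (hprime p (k2 3) (k2 4))) (hnegd p (hprime p (k2 3) hdnp))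
  have S3 : Splits ((-(c * a 2) : ℤ) : ℚ) ((a 2 * d : ℤ) : ℚ) := by
    refine global (neg_ne_zero.2 (mul_ne_zero hc0 (ha 2))) (mul_ne_zero (ha 2) hd0) q' ?_ ?_
    · rw [splits_real_iff]
      · rcases R3 with h | h
        · left
          have h' : 0 < (-a 2) * sc := by linarith
          have := sgn hcs hsc (-a 2) h'
          have h2 : 0 < -(c * a 2) := by linarith
          exact_mod_cast h2
        · exact Or.inr (by exact_mod_cast sgn hds hsd (a 2) h)
      · exact_mod_cast neg_ne_zero.2 (mul_ne_zero hc0 (ha 2))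
      · exact_mod_cast mul_ne_zero (ha 2) hd0
    · intro p hpq
      by_cases hpT : p ∈ T
      · have h := dT p hpT
        have h' := hcT p hpT
        push_cast at h' ⊢
        refine (splits_class (mul_ne_zero (cast0 p 2) (hdne p)) (mul_ne_zero (cast0 p 2) (hgdne p))
          ?_).2 ?_
        · obtain ⟨r, hr⟩ := h
          exact ⟨a 2 * r, by linear_combination (a 2 : ℚ_[(p : ℕ)]) ^ 2 * hr⟩
        · rw [splits_comm]
          refine (splits_class (neg_ne_zero.2 (mul_ne_zero (hcne p) (cast0 p 2)))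
            (neg_ne_zero.2 (mul_ne_zero (hgcne p) (cast0 p 2))) ?_).2 (splits_comm.1 (L3 p))
          obtain ⟨r, hr⟩ := h'
          exact ⟨a 2 * r, by linear_combination (a 2 : ℚ_[(p : ℕ)]) ^ 2 * hr⟩
      · obtain ⟨k1, k2⟩ := hTa p hpT
        by_cases hpq2 : p = q
        · subst hpq2
          push_cast
          -- the second entry is a square
          obtain ⟨r, hr⟩ := dq
          exact ⟨0, 1, r, Or.inr (Or.inl one_ne_zero), by linear_combination -hr⟩
        · have hdnp : ¬ ((p : ℕ) : ℤ) ∣ d := hdn p (by simp [hpT, hpq2]) hpq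
          exact splits_units k1 (hnegd p (hprime p (hcn p hpT hpq2) (k2 2)))
            (hprime p (k2 2) hdnp)
  refine glue5 (fun i => ((a i : ℤ) : ℚ)) (fun i => Int.cast_ne_zero.2 (ha i)) (c := (c : ℚ))
    (d := (d : ℚ)) (Int.cast_ne_zero.2 hc0) (Int.cast_ne_zero.2 hd0) ?_ ?_ ?_
  · push_cast at S1; exact S1
  · push_cast at S2; exact S2
  · push_cast at S3; exact S3

end Pool.Agent.R847.QB
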