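import Mathlib

/-!
# The rank of square matrices over fields
-/

set_option autoImplicit false

namespace Pool.Agent.R847.QB

open Matrix

variable {F : Type} [Field F]

/-- a matrix of rank at least `r` has a left and a right factor with product `1` -/
theorem rank_ge_iff {N r : ℕ} (M : Matrix (Fin N) (Fin N) F) : r ≤ M.rank ↔
    ∃ (C : Matrix (Fin r) (Fin N) F) (D : Matrix (Fin N) (Fin r) F), C * M * D = 1 := by
  constructor
  · intro h
    obtain ⟨V, U, e, -, -, he⟩ := exists_rank_normal_form M
    let f : Fin r → Fin N := fun i => e.symm (Sum.inl (Fin.castLE h i))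
    refine ⟨V.submatrix f id, U.submatrix id f, ?_⟩
    have h1 : V.submatrix f id * M * U.submatrix id f = (V * M * U).submatrix f f := by
      ext i j
      simp [Matrix.mul_apply]
    rw [h1, he]
    ext i j
    simp only [submatrix_apply, f, Equiv.apply_symm_apply, fromBlocks_apply₁₁, Matrix.one_apply]
    congr 1
    exact propext ⟨fun h2 => (Fin.castLE_injective h) h2, fun h2 => by rw [h2]⟩
  · rintro ⟨C, D, h⟩
    have h1 : (1 : Matrix (Fin r) (Fin r) F).rank = r := by
      rw [rank_one, Fintype.card_fin]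
    rw [← h1, ← h]
    exact (rank_mul_le_left _ _).trans (rank_mul_le_right _ _)

/-- rank factorization -/
theorem rank_factor {N : ℕ} (M : Matrix (Fin N) (Fin N) F) :
    ∃ (P : Matrix (Fin N) (Fin M.rank) F) (Q : Matrix (Fin M.rank) (Fin N) F), M = P * Q := by
  obtain ⟨V, U, e, hV, hU, he⟩ := exists_rank_normal_form M
  have hV' : V⁻¹ * V = 1 := Matrix.nonsing_inv_mul _ ((Matrix.isUnit_iff_isUnit_det _).1 hV)
  have hU' : U * U⁻¹ = 1 := Matrix.mul_nonsing_inv _ ((Matrix.isUnit_iff_isUnit_det _).1 hU)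
  let E1 : Matrix (Fin N) (Fin M.rank) F := fun i k => if e i = Sum.inl k then 1 else 0
  let E2 : Matrix (Fin M.rank) (Fin N) F := fun k j => if e j = Sum.inl k then 1 else 0
  refine ⟨V⁻¹ * E1, E2 * U⁻¹, ?_⟩
  have h1 : V * M * U = E1 * E2 := by
    rw [he]
    ext i j
    rw [Matrix.mul_apply]
    simp only [submatrix_apply, E1, E2]
    rcases h : e i with k | k <;> rcases h' : e j with l | l
    · simp [Matrix.one_apply]
    · simp
    · simp
    · simp
  calc M = (V⁻¹ * V) * M * (U * U⁻¹) := by rw [hV', hU', one_mul, mul_one]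
    _ = V⁻¹ * (V * M * U) * U⁻¹ := by simp only [Matrix.mul_assoc]
    _ = V⁻¹ * E1 * (E2 * U⁻¹) := by rw [h1]; simp only [Matrix.mul_assoc]

/-- the rank does not change under field extensions -/
theorem rank_map_eq {E : Type} [Field E] (φ : F →+* E) {N : ℕ} (M : Matrix (Fin N) (Fin N) F) :
    (M.map φ).rank = M.rank := by
  apply le_antisymm
  · obtain ⟨P, Q, h⟩ := rank_factor M
    have h1 : M.map φ = P.map φ * Q.map φ := by
      conv_lhs => rw [h]
      exact Matrix.map_mul
    rw [h1]
    refine (rank_mul_le_left _ _).trans ?_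
    have := rank_le_width (P.map φ)
    exact this
  · obtain ⟨C, D, h⟩ := (rank_ge_iff M).1 le_rfl
    refine (rank_ge_iff _).2 ⟨C.map φ, D.map φ, ?_⟩
    rw [← Matrix.map_mul, ← Matrix.map_mul, h]
    exact Matrix.map_one _ (map_zero φ) (map_one φ)

end Pool.Agent.R847.QB
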