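import Pool.Agent.R847.QB.Fib
import Pool.Agent.R847.QB.Rank
import Pool.Agent.TH729.CC.Hom
import Pool.Agent.TH729.SQ.Values

/-!
# Closures of the sets of rational points of families of quadrics
-/

set_option autoImplicit false

namespace Pool.Agent.R847.QB

open Matrix Topology Filter Pool.Agent.TH729.SQ Pool.Agent.H581R2

/-- symmetric matrices of polynomials -/
abbrev PM (n m : ℕ) := Matrix (Fin (m + 1)) (Fin (m + 1)) (MvPolynomial (Fin n) ℚ)

variable {n m : ℕ}

/-- the matrix at a rational point -/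
noncomputable def atq (A : PM n m) (b : Fin n → ℚ) : Matrix (Fin (m + 1)) (Fin (m + 1)) ℚ :=
  A.map (MvPolynomial.eval b)

/-- the matrix at a real point -/
noncomputable def atr (A : PM n m) (b : Fin n → ℝ) : Matrix (Fin (m + 1)) (Fin (m + 1)) ℝ :=
  A.map fun p => MvPolynomial.aeval b p

theorem atr_rv (A : PM n m) (b : Fin n → ℚ) : atr A (rv b) = (atq A b).map (algebraMap ℚ ℝ) := by
  ext i j
  simp only [atr, atq, Matrix.map_apply]
  exact aeval_cast b (A i j)

/-- the point of the base -/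
def bs {R : Type} (x : Fin (n + m) → R) : Fin n → R := fun i => x (Fin.castAdd m i)

/-- the point of the fibre, with the coordinate `1` in front -/
def fb {R : Type} [One R] (x : Fin (n + m) → R) : Fin (m + 1) → R :=
  Fin.cons 1 fun j => x (Fin.natAdd n j)

/-- the rational points of the family over `B` -/
def pts (A : PM n m) (B : Set (Fin n → ℚ)) : Set (Fin (n + m) → ℚ) :=
  {x | bs x ∈ B ∧ fb x ⬝ᵥ atq A (bs x) *ᵥ fb x = 0}

theorem atq_symm {A : PM n m} (hA : A.IsSymm) (b : Fin n → ℚ) : (atq A b).IsSymm := by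
  ext i j
  simp only [atq, Matrix.transpose_apply, Matrix.map_apply]
  rw [hA.apply]

theorem atr_symm {A : PM n m} (hA : A.IsSymm) (b : Fin n → ℝ) : (atr A b).IsSymm := by
  ext i j
  simp only [atr, Matrix.transpose_apply, Matrix.map_apply]
  rw [hA.apply]

theorem aeval_continuous (p : MvPolynomial (Fin n) ℚ) :
    Continuous fun b : Fin n → ℝ => (MvPolynomial.aeval b p : ℝ) := by
  induction p using MvPolynomial.induction_on with
  | C a => simpa using continuous_const
  | add p q hp hq =>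
    simp only [map_add]
    exact hp.add hq
  | mul_X p i hp =>
    simp only [map_mul, MvPolynomial.aeval_X]
    exact hp.mul (continuous_apply i)

theorem atr_continuous (A : PM n m) : Continuous fun b : Fin n → ℝ => atr A b :=
  continuous_matrix fun i j => aeval_continuous (A i j)

theorem fb_rv (x : Fin (n + m) → ℚ) : fb (rv x) = rv (fb x) := by
  funext i
  refine Fin.cases ?_ (fun j => ?_) i
  · simp [fb, rv]
  · simp [fb, rv]

theorem bs_rv (x : Fin (n + m) → ℚ) : bs (rv x) = rv (bs x) := rfl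

theorem pf_atr (A : PM n m) (i j : Fin (m + 1)) {ι : Type} {φ : (ι → ℝ) → Fin n → ℝ}
    (hφ : ∀ k, PF fun w => φ w k) : PF fun w => atr A (φ w) i j :=
  (PF.aeval (A i j)).comp hφ

theorem pf_fb (i : Fin (m + 1)) : PF fun x : Fin (n + m) → ℝ => fb x i := by
  refine Fin.cases ?_ (fun j => ?_) i
  · exact PF.one
  · exact PF.coord _

theorem sap_rank (A : PM n m) (r : ℕ) :
    SAP fun x : Fin (n + m) → ℝ => r ≤ (atr A (bs x)).rank := by
  have h1 := SAP.exists_fun ((Fin r × Fin (m + 1)) ⊕ (Fin (m + 1) × Fin r)) (Fin (n + m))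
    (fun w => ∀ a b : Fin r, ∑ l, (∑ k, w (Sum.inl (Sum.inl (a, k))) *
      atr A (fun i => w (Sum.inr (Fin.castAdd m i))) k l) * w (Sum.inl (Sum.inr (l, b))) =
        if a = b then 1 else 0) (by
      refine SAP.forall_fin fun a => SAP.forall_fin fun b => ?_
      refine SAP.eq (PF.sum _ fun l _ => PF.mul (PF.sum _ fun k _ => PF.mul (PF.coord _) ?_)
        (PF.coord _)) ?_
      · exact pf_atr A k l (φ := fun w i => w (Sum.inr (Fin.castAdd m i))) fun k => PF.coord _
      · split_ifs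
        · exact PF.one
        · exact PF.zero)
  refine SAP.congr h1 fun x => ?_
  rw [rank_ge_iff]
  constructor
  · rintro ⟨C, D, h⟩
    refine ⟨Sum.elim (fun z => C z.1 z.2) (fun z => D z.1 z.2), fun a b => ?_⟩
    have h2 := congrFun (congrFun h a) b
    rw [Matrix.mul_apply, Matrix.one_apply] at h2
    simp only [Matrix.mul_apply] at h2
    exact h2
  · rintro ⟨u, h⟩
    refine ⟨Matrix.of fun a k => u (Sum.inl (a, k)), Matrix.of fun l b => u (Sum.inr (l, b)), ?_⟩
    ext a b
    rw [Matrix.mul_apply, Matrix.one_apply]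
    simp only [Matrix.mul_apply]
    exact h a b

theorem sap_quad (A : PM n m) :
    SAP fun x : Fin (n + m) → ℝ => fb x ⬝ᵥ atr A (bs x) *ᵥ fb x = 0 := by
  refine SAP.eq_zero ?_
  simp only [dotProduct, mulVec]
  refine PF.sum _ fun i _ => PF.mul (pf_fb i) (PF.sum _ fun j _ => PF.mul ?_ (pf_fb j))
  exact pf_atr A i j (φ := fun x : Fin (n + m) → ℝ => bs x) fun k => PF.coord _

theorem real_of_pts {A : PM n m} {B : Set (Fin n → ℚ)} {x : Fin (n + m) → ℚ} (hx : x ∈ pts A B) :
    fb (rv x) ⬝ᵥ atr A (bs (rv x)) *ᵥ fb (rv x) = 0 := by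
  rw [fb_rv, bs_rv, atr_rv, rv_mulVec, rv_dot, hx.2]
  simp

/-- **constant rank** -/
theorem strat (hdeg : S_DEG) (hden : S_DEN) (hker : S_KER) {A : PM n m} (hA : A.IsSymm)
    {B : Set (Fin n → ℚ)} {r : ℕ} (hr : 5 ≤ r) (hB : ∀ b ∈ B, (atq A b).rank = r)
    (hSA : SA (closure (rv '' B))) : SA (closure (rv '' pts A B)) := by
  set E : Set (Fin (n + m) → ℝ) := {x | bs x ∈ closure (rv '' B) ∧
    (r ≤ (atr A (bs x)).rank ∧ fb x ⬝ᵥ atr A (bs x) *ᵥ fb x = 0)} with hE
  have hEs : SA E := by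
    refine SAP.and ?_ (SAP.and (sap_rank A r) (sap_quad A))
    exact SAP.preimage (p := fun v => v ∈ closure (rv '' B)) hSA (fun i => PF.coord _)
  have hsub : rv '' pts A B ⊆ E := by
    rintro _ ⟨x, hx, rfl⟩
    refine ⟨subset_closure ⟨bs x, hx.1, rfl⟩, ?_, real_of_pts hx⟩
    rw [bs_rv, atr_rv, rank_map_eq, hB _ hx.1]
  have hcl : E ⊆ closure (rv '' pts A B) := by
    rintro x ⟨hx1, hx2, hx3⟩
    rw [Metric.mem_closure_iff]
    intro ε hε
    have h1 := lift hker (atr A (bs x)) (atr_symm hA _) (fb x) rfl hx3 (half_pos hε)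
    have h2 := (atr_continuous A).continuousAt.eventually h1
    have h3 := h2.and (Metric.ball_mem_nhds (bs x) hε)
    rw [mem_closure_iff_frequently] at hx1
    obtain ⟨_, ⟨b, hb, rfl⟩, h4, h5⟩ := (hx1.and_eventually h3).exists
    obtain ⟨v', k1, k2, k3⟩ := h4 (by
      rw [atr_rv, rank_map_eq, hB b hb]
      exact hx2)
    rw [atr_rv] at k2
    obtain ⟨w, l1, l2, l3⟩ := fibre_dense hdeg hden (atq A b) (atq_symm hA b) (by
      rw [hB b hb]; exact hr) v' k1 k2 (half_pos hε)
    have e1 : bs (Fin.append b fun j => w j.succ) = b := by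
      funext i
      simp [bs]
    have e2 : fb (Fin.append b fun j => w j.succ) = w := by
      funext i
      refine Fin.cases ?_ (fun j => ?_) i
      · simp [fb, l1]
      · simp [fb]
    refine ⟨rv (Fin.append b fun j => w j.succ), ⟨_, ⟨?_, ?_⟩, rfl⟩, ?_⟩
    · rw [e1]; exact hb
    · rw [e1, e2]; exact l2
    · rw [dist_comm, dist_pi_lt_iff hε]
      intro k
      refine Fin.addCases (fun i => ?_) (fun j => ?_) k
      · have h6 : dist (rv b) (bs x) < ε := h5
        rw [dist_pi_lt_iff hε] at h6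
        simpa [rv, bs] using h6 i
      · have h6 := l3 j.succ
        have h7 := k3 j.succ
        have h8 : fb x j.succ = x (Fin.natAdd n j) := by simp [fb]
        rw [h8] at h7
        rw [Real.dist_eq]
        simp only [rv, Fin.append_right]
        calc |(w j.succ : ℝ) - x (Fin.natAdd n j)|
            ≤ |(w j.succ : ℝ) - v' j.succ| + |v' j.succ - x (Fin.natAdd n j)| := abs_sub_le _ _ _
          _ < ε := by linarith
  have h9 : closure (rv '' pts A B) = closure E :=
    subset_antisymm (closure_mono hsub) (closure_minimal hcl isClosed_closure)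
  rw [h9]
  exact SA.closure hEs

/-- finite unions -/
theorem sa_iUnion {ι α : Type} [Finite α] {S : α → Set (ι → ℝ)} (h : ∀ a, SA (S a)) :
    SA (⋃ a, S a) := by
  refine SAP.congr (SAP.exists_fin (p := fun a v => v ∈ S a) h) fun v => ?_
  exact Set.mem_iUnion

theorem rank_le (A : PM n m) (b : Fin n → ℚ) : (atq A b).rank ≤ m + 1 := by
  have := rank_le_width (atq A b)
  exact this

/-- **the general theorem** -/
theorem part1 (hdeg : S_DEG) (hden : S_DEN) (hker : S_KER) {A : PM n m} (hA : A.IsSymm)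
    {B : Set (Fin n → ℚ)}
    (h5 : ∀ r, 5 ≤ r → SA (closure (rv '' {b | b ∈ B ∧ (atq A b).rank = r})))
    (hlow : SA (closure (rv '' pts A {b | b ∈ B ∧ (atq A b).rank < 5}))) :
    SA (closure (rv '' pts A B)) := by
  have e : rv '' pts A B = rv '' pts A {b | b ∈ B ∧ (atq A b).rank < 5} ∪
      ⋃ r : Fin (m + 2), rv '' pts A {b | b ∈ B ∧ (5 ≤ (r : ℕ) ∧ (atq A b).rank = r)} := by
    ext x
    constructor
    · rintro ⟨y, hy, rfl⟩
      by_cases h : (atq A (bs y)).rank < 5
      · exact Or.inl ⟨y, ⟨⟨hy.1, h⟩, hy.2⟩, rfl⟩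
      · right
        rw [Set.mem_iUnion]
        exact ⟨⟨(atq A (bs y)).rank, by have := rank_le A (bs y); omega⟩, y,
          ⟨⟨hy.1, by simpa using h, rfl⟩, hy.2⟩, rfl⟩
    · rintro (⟨y, hy, rfl⟩ | h)
      · exact ⟨y, ⟨hy.1.1, hy.2⟩, rfl⟩
      · rw [Set.mem_iUnion] at h
        obtain ⟨r, y, hy, rfl⟩ := h
        exact ⟨y, ⟨hy.1.1, hy.2⟩, rfl⟩
  rw [e, closure_union, closure_iUnion_of_finite]
  refine SA.union hlow (sa_iUnion fun r => ?_)
  by_cases hr : 5 ≤ (r : ℕ)
  · have e2 : {b | b ∈ B ∧ (5 ≤ (r : ℕ) ∧ (atq A b).rank = r)} =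
        {b | b ∈ B ∧ (atq A b).rank = r} := by
      ext b
      simp [hr]
    rw [e2]
    exact strat hdeg hden hker hA hr (fun b hb => hb.2) (h5 r hr)
  · have e2 : {b | b ∈ B ∧ (5 ≤ (r : ℕ) ∧ (atq A b).rank = r)} = ∅ := by
      ext b
      simp [hr]
    have e3 : rv '' pts A (∅ : Set (Fin n → ℚ)) = ∅ := by
      rw [Set.image_eq_empty]
      ext x
      simp [pts]
    rw [e2, e3, closure_empty]
    exact SA.empty

/-- the polynomial of a fibre -/
noncomputable def fpoly (M : Matrix (Fin (m + 1)) (Fin (m + 1)) ℚ) : MvPolynomial (Fin m) ℚ :=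
  ∑ i, ∑ j, MvPolynomial.C (M i j) * (Fin.cons 1 MvPolynomial.X : Fin (m + 1) → _) i *
    (Fin.cons 1 MvPolynomial.X : Fin (m + 1) → _) j

theorem fpoly_deg (M : Matrix (Fin (m + 1)) (Fin (m + 1)) ℚ) : (fpoly M).totalDegree ≤ 3 := by
  have h1 : ∀ i : Fin (m + 1),
      ((Fin.cons 1 MvPolynomial.X : Fin (m + 1) → MvPolynomial (Fin m) ℚ) i).totalDegree ≤ 1 := by
    intro i
    refine Fin.cases ?_ (fun j => ?_) i
    · simp
    · simp
  refine (MvPolynomial.totalDegree_finsetSum_le (d := 2) fun i _ => ?_).trans (by norm_num)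
  refine MvPolynomial.totalDegree_finsetSum_le (d := 2) fun j _ => ?_
  refine (MvPolynomial.totalDegree_mul _ _).trans ?_
  have h2 := MvPolynomial.totalDegree_mul (MvPolynomial.C (M i j) : MvPolynomial (Fin m) ℚ)
    ((Fin.cons 1 MvPolynomial.X : Fin (m + 1) → MvPolynomial (Fin m) ℚ) i)
  rw [MvPolynomial.totalDegree_C] at h2
  have := h1 i
  have := h1 j
  omega

theorem fpoly_eval (M : Matrix (Fin (m + 1)) (Fin (m + 1)) ℚ) (y : Fin m → ℚ) :
    MvPolynomial.eval y (fpoly M) =
      (Fin.cons 1 y : Fin (m + 1) → ℚ) ⬝ᵥ M *ᵥ (Fin.cons 1 y : Fin (m + 1) → ℚ) := by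
  have h1 : ∀ i : Fin (m + 1), MvPolynomial.eval y
      ((Fin.cons 1 MvPolynomial.X : Fin (m + 1) → MvPolynomial (Fin m) ℚ) i) =
        (Fin.cons 1 y : Fin (m + 1) → ℚ) i := by
    intro i
    refine Fin.cases ?_ (fun j => ?_) i
    · simp
    · simp
  simp only [fpoly, map_sum, map_mul, h1, MvPolynomial.eval_C, dotProduct, mulVec,
    Finset.mul_sum]
  refine Finset.sum_congr rfl fun i _ => Finset.sum_congr rfl fun j _ => ?_
  ring

/-- one fibre -/
theorem one_fibre (A : PM n m) (b : Fin n → ℚ) : SA (closure (rv '' pts A {b})) := by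
  have h1 := Pool.Agent.TH729.CC.affine_SA (algebraMap ℚ ℝ) (fun r => isAlgebraic_algebraMap r)
    (fpoly (atq A b)) (fpoly_deg _)
  set S : Set (Fin m → ℝ) := {x : Fin m → ℝ | ∃ r : Fin m → ℚ,
    MvPolynomial.eval r (fpoly (atq A b)) = 0 ∧ x = fun i => algebraMap ℚ ℝ (r i)} with hS
  have e : closure (rv '' pts A {b}) = {x : Fin (n + m) → ℝ | (∀ i, bs x i = (b i : ℝ)) ∧
      (fun j => x (Fin.natAdd n j)) ∈ closure S} := by
    apply subset_antisymm
    · refine closure_minimal ?_ ?_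
      · rintro _ ⟨x, ⟨hx1, hx2⟩, rfl⟩
        rw [Set.mem_singleton_iff] at hx1
        refine ⟨fun i => by rw [bs_rv, hx1]; rfl, subset_closure ⟨fun j => x (Fin.natAdd n j), ?_,
          rfl⟩⟩
        rw [fpoly_eval, ← hx1]
        exact hx2
      · refine IsClosed.inter (s₁ := {x : Fin (n + m) → ℝ | ∀ i, bs x i = (b i : ℝ)}) ?_ ?_
        · have : {x : Fin (n + m) → ℝ | ∀ i, bs x i = (b i : ℝ)} =
              ⋂ i, {x : Fin (n + m) → ℝ | bs x i = (b i : ℝ)} := by ext; simp
          rw [this]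
          exact isClosed_iInter fun i => isClosed_eq (continuous_apply _) continuous_const
        · exact isClosed_closure.preimage (continuous_pi fun j => continuous_apply _)
    · rintro x ⟨hx1, hx2⟩
      rw [Metric.mem_closure_iff] at hx2 ⊢
      intro ε hε
      obtain ⟨_, ⟨r, hr, rfl⟩, h3⟩ := hx2 ε hε
      rw [dist_pi_lt_iff hε] at h3
      have e1 : bs (Fin.append b r) = b := by
        funext i
        simp [bs]
      refine ⟨rv (Fin.append b r), ⟨_, ⟨?_, ?_⟩, rfl⟩, ?_⟩
      · rw [e1]; rfl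
      · rw [e1]
        rw [fpoly_eval] at hr
        have e2 : fb (Fin.append b r) = Fin.cons 1 r := by
          funext i
          refine Fin.cases ?_ (fun j => ?_) i
          · simp [fb]
          · simp [fb]
        rw [e2]
        exact hr
      · rw [dist_pi_lt_iff hε]
        intro k
        refine Fin.addCases (fun i => ?_) (fun j => ?_) k
        · have h4 := hx1 i
          simp only [bs] at h4
          simp only [rv, Fin.append_left, h4, dist_self]
          exact hε
        · simp only [rv, Fin.append_right]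
          exact h3 j
  rw [e]
  refine SAP.and (SAP.forall_fin fun i => SAP.eq (PF.coord _) (PF.const _)) ?_
  exact SAP.preimage (p := fun v => v ∈ closure S) h1 (fun i => PF.coord _)

/-- **finitely many exceptional fibres** -/
theorem part2 (hdeg : S_DEG) (hden : S_DEN) (hker : S_KER) {A : PM n m} (hA : A.IsSymm)
    {B : Set (Fin n → ℚ)} (hB : SA (closure (rv '' B))) {r : ℕ} (hr : 5 ≤ r)
    (hfin : {b | b ∈ B ∧ (atq A b).rank ≠ r}.Finite) : SA (closure (rv '' pts A B)) := by
  set X : Set (Fin n → ℚ) := {b | b ∈ B ∧ (atq A b).rank ≠ r} with hX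
  set B1 : Set (Fin n → ℚ) := {b | b ∈ B ∧ (atq A b).rank = r} with hB1
  have hBu : B = B1 ∪ X := by
    ext b
    simp only [hX, hB1, Set.mem_union, Set.mem_ofPred_eq]
    tauto
  -- the closure of `B1`
  have h1 : SA (closure (rv '' B1)) := by
    set Y : Set (Fin n → ℚ) := {b | b ∈ X ∧ rv b ∉ closure (rv '' B1)} with hY
    have hYf : Y.Finite := hfin.subset fun b hb => hb.1
    have e1 : closure (rv '' B1) = closure (rv '' B) ∩ {x | ∃ b ∈ Y, ∀ i, x i = (b i : ℝ)}ᶜ := by
      have e2 : closure (rv '' B) = closure (rv '' B1) ∪ rv '' X := by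
        rw [hBu, Set.image_union, closure_union, (hfin.image rv).isClosed.closure_eq]
      rw [e2]
      ext x
      constructor
      · intro hx
        refine ⟨Or.inl hx, ?_⟩
        rintro ⟨b, hb, hxb⟩
        apply hb.2
        have : x = rv b := funext hxb
        rwa [← this]
      · rintro ⟨hx | ⟨b, hb, rfl⟩, h⟩
        · exact hx
        · by_contra hcon
          exact h ⟨b, ⟨hb, hcon⟩, fun i => rfl⟩
    rw [e1]
    exact SA.inter hB (SA.compl (SA.finite_rat hYf))
  have e : rv '' pts A B = rv '' pts A B1 ∪ ⋃ b : X, rv '' pts A {(b : Fin n → ℚ)} := by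
    ext x
    constructor
    · rintro ⟨y, hy, rfl⟩
      by_cases h : (atq A (bs y)).rank = r
      · exact Or.inl ⟨y, ⟨⟨hy.1, h⟩, hy.2⟩, rfl⟩
      · right
        rw [Set.mem_iUnion]
        exact ⟨⟨bs y, hy.1, h⟩, y, ⟨rfl, hy.2⟩, rfl⟩
    · rintro (⟨y, hy, rfl⟩ | h)
      · exact ⟨y, ⟨hy.1.1, hy.2⟩, rfl⟩
      · rw [Set.mem_iUnion] at h
        obtain ⟨b, y, hy, rfl⟩ := h
        refine ⟨y, ⟨?_, hy.2⟩, rfl⟩
        have h2 : bs y = b := hy.1
        rw [h2]
        exact b.2.1
  have : Finite X := hfin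
  rw [e, closure_union, closure_iUnion_of_finite]
  exact SA.union (strat hdeg hden hker hA hr (fun b hb => hb.2) h1)
    (sa_iUnion fun b => one_fibre A b)

end Pool.Agent.R847.QB
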