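import Mathlib
import Pool.Agent.R847.QB.Stm2

/-!
# Density of rational points on quadrics and deformation of real points
-/

set_option autoImplicit false

namespace Pool.Agent.R847.QB

open Matrix Topology Filter

/-- the real vector of a rational vector -/
def rv {N : ℕ} (w : Fin N → ℚ) : Fin N → ℝ := fun i => (w i : ℝ)

theorem rv_mulVec {N : ℕ} (M : Matrix (Fin N) (Fin N) ℚ) (w : Fin N → ℚ) :
    (M.map (algebraMap ℚ ℝ)) *ᵥ rv w = rv (M *ᵥ w) := by
  funext i
  exact (RingHom.map_mulVec (algebraMap ℚ ℝ) M w i).symm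

theorem rv_dot {N : ℕ} (v w : Fin N → ℚ) : rv v ⬝ᵥ rv w = ((v ⬝ᵥ w : ℚ) : ℝ) :=
  (RingHom.map_dotProduct (algebraMap ℚ ℝ) v w).symm

theorem rv_add {N : ℕ} (v w : Fin N → ℚ) : rv (v + w) = rv v + rv w := by
  funext i; simp [rv]

theorem rv_smul {N : ℕ} (c : ℚ) (w : Fin N → ℚ) : rv (c • w) = (c : ℝ) • rv w := by
  funext i; simp [rv]

theorem rv_zero {N : ℕ} : rv (0 : Fin N → ℚ) = 0 := by
  funext i; simp [rv]

theorem rv_inj {N : ℕ} {v w : Fin N → ℚ} (h : rv v = rv w) : v = w := by
  funext i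
  have := congrFun h i
  simpa [rv] using this

theorem map_symm {N : ℕ} {M : Matrix (Fin N) (Fin N) ℚ} (hM : M.IsSymm) :
    (M.map (algebraMap ℚ ℝ)).IsSymm := by
  unfold Matrix.IsSymm
  rw [← Matrix.transpose_map, hM]

/-- rational vectors in neighbourhoods -/
theorem exists_rat {N : ℕ} {v : Fin N → ℝ} {U : Set (Fin N → ℝ)} (hU : U ∈ 𝓝 v) :
    ∃ w : Fin N → ℚ, rv w ∈ U := by
  obtain ⟨ε, hε, h⟩ := Metric.mem_nhds_iff.1 hU
  choose w hw using fun i => exists_rat_btwn (show v i < v i + ε by linarith)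
  refine ⟨w, h ?_⟩
  rw [Metric.mem_ball, dist_pi_lt_iff hε]
  intro i
  rw [Real.dist_eq, abs_lt]
  exact ⟨by have := (hw i).1; simp only [rv]; linarith,
    by have := (hw i).2; simp only [rv]; linarith⟩

theorem symm_dot {R : Type} [CommRing R] {N : ℕ} {M : Matrix (Fin N) (Fin N) R} (hM : M.IsSymm)
    (x y : Fin N → R) : x ⬝ᵥ M *ᵥ y = y ⬝ᵥ M *ᵥ x := by
  rw [dotProduct_mulVec, dotProduct_comm, ← mulVec_transpose, hM]

/-- the residual intersection of the line through `w` and `u` with the quadric -/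
def pr {R : Type} [CommRing R] {N : ℕ} (M : Matrix (Fin N) (Fin N) R) (w u : Fin N → R) :
    Fin N → R :=
  (u ⬝ᵥ M *ᵥ u) • w - (2 * (w ⬝ᵥ M *ᵥ u)) • u

theorem pr_iso {R : Type} [CommRing R] {N : ℕ} {M : Matrix (Fin N) (Fin N) R} (hM : M.IsSymm)
    {w : Fin N → R} (hw : w ⬝ᵥ M *ᵥ w = 0) (u : Fin N → R) :
    pr M w u ⬝ᵥ M *ᵥ pr M w u = 0 := by
  have h1 := symm_dot hM u w
  simp only [pr, mulVec_sub, mulVec_smul, dotProduct_sub, sub_dotProduct, smul_dotProduct,
    dotProduct_smul, smul_eq_mul, hw, h1]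
  ring

theorem pr_dot {R : Type} [CommRing R] {N : ℕ} {M : Matrix (Fin N) (Fin N) R}
    (w u v : Fin N → R) : pr M w u ⬝ᵥ M *ᵥ v =
      (u ⬝ᵥ M *ᵥ u) * (w ⬝ᵥ M *ᵥ v) - 2 * (w ⬝ᵥ M *ᵥ u) * (u ⬝ᵥ M *ᵥ v) := by
  simp only [pr, sub_dotProduct, smul_dotProduct, smul_eq_mul]

theorem rv_pr {N : ℕ} (M : Matrix (Fin N) (Fin N) ℚ) (w u : Fin N → ℚ) :
    rv (pr M w u) = pr (M.map (algebraMap ℚ ℝ)) (rv w) (rv u) := by
  funext i
  simp only [pr, rv_mulVec, rv_dot]
  simp [rv]

theorem pr_continuous {N : ℕ} (M : Matrix (Fin N) (Fin N) ℝ) (w : Fin N → ℝ) :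
    Continuous (fun u => pr M w u) := by
  unfold pr
  have h1 : Continuous fun u : Fin N → ℝ => M *ᵥ u := by
    refine continuous_pi fun i => ?_
    simp only [mulVec, dotProduct]
    fun_prop
  have h2 : Continuous fun u : Fin N → ℝ => u ⬝ᵥ M *ᵥ u := by
    simp only [dotProduct]
    refine continuous_finsetSum _ fun i _ => (continuous_apply i).mul ((continuous_apply i).comp h1)
  have h3 : Continuous fun u : Fin N → ℝ => w ⬝ᵥ M *ᵥ u := by
    simp only [dotProduct]
    refine continuous_finsetSum _ fun i _ => continuous_const.mul ((continuous_apply i).comp h1)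
  exact (h2.smul continuous_const).sub ((continuous_const.mul h3).smul continuous_id)

/-- **Density of the rational points on affine quadrics of rank at least five.** -/
theorem fibre_dense (hdeg : S_DEG) (hden : S_DEN) {m : ℕ}
    (M : Matrix (Fin (m + 1)) (Fin (m + 1)) ℚ) (hM : M.IsSymm) (hr : 5 ≤ M.rank)
    (v : Fin (m + 1) → ℝ) (hv0 : v 0 = 1) (hv : v ⬝ᵥ (M.map (algebraMap ℚ ℝ)) *ᵥ v = 0) {ε : ℝ}
    (hε : 0 < ε) :
    ∃ w : Fin (m + 1) → ℚ, w 0 = 1 ∧ w ⬝ᵥ M *ᵥ w = 0 ∧ ∀ i, |(w i : ℝ) - v i| < ε := by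
  set MR := M.map (algebraMap ℚ ℝ) with hMR
  have hMRs : MR.IsSymm := map_symm hM
  -- it is enough to find rational isotropic vectors with direction near `v`
  have red : ∀ (Z : (Fin (m + 1) → ℝ) → Fin (m + 1) → ℝ) (Zq : (Fin (m + 1) → ℚ) → Fin (m + 1) → ℚ),
      Continuous Z → (∀ u, rv (Zq u) = Z (rv u)) → (∃ c : ℝ, c ≠ 0 ∧ Z v = c • v) →
      (∀ u, Zq u ⬝ᵥ M *ᵥ Zq u = 0) →
      ∃ w : Fin (m + 1) → ℚ, w 0 = 1 ∧ w ⬝ᵥ M *ᵥ w = 0 ∧ ∀ i, |(w i : ℝ) - v i| < ε := by
    rintro Z Zq hZ hq ⟨c, hc, hZv⟩ hiso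
    have hZ0 : Z v 0 ≠ 0 := by rw [hZv]; simpa [hv0] using hc
    have hcont : ContinuousAt (fun u i => Z u i / Z u 0) v := by
      refine continuousAt_pi.2 fun i => ?_
      exact ((continuous_apply i).comp hZ).continuousAt.div
        ((continuous_apply 0).comp hZ).continuousAt hZ0
    have hlim : (fun i => Z v i / Z v 0) = v := by
      funext i
      rw [hZv]
      simp only [Pi.smul_apply, smul_eq_mul, hv0, mul_one]
      field_simp
    have h1 : {u | Z u 0 ≠ 0 ∧ dist (fun i => Z u i / Z u 0) v < ε} ∈ 𝓝 v := by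
      refine inter_mem ?_ ?_
      · exact ((continuous_apply 0).comp hZ).continuousAt.eventually_ne hZ0
      · have h2 := hcont.tendsto
        rw [hlim] at h2
        exact h2 (Metric.ball_mem_nhds v hε)
    obtain ⟨u, hu0, hu⟩ := exists_rat h1
    have hz0 : Zq u 0 ≠ 0 := by
      intro h0
      apply hu0
      rw [← hq u]
      simp [rv, h0]
    refine ⟨fun i => Zq u i / Zq u 0, div_self hz0, ?_, fun i => ?_⟩
    · have e1 : (fun i => Zq u i / Zq u 0) = (Zq u 0)⁻¹ • Zq u := by
        funext i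
        simp [div_eq_inv_mul]
      rw [e1, mulVec_smul, smul_dotProduct, dotProduct_smul, hiso u]
      simp
    · rw [dist_pi_lt_iff hε] at hu
      have := hu i
      rw [Real.dist_eq, ← hq u] at this
      push_cast
      exact this
  by_cases hMv : MR *ᵥ v = 0
  · -- vertices
    have hcont : ContinuousAt (fun (u : Fin (m + 1) → ℝ) i => u i / u 0) v := by
      refine continuousAt_pi.2 fun i => ?_
      exact (continuous_apply i).continuousAt.div (continuous_apply 0).continuousAt (by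
        rw [hv0]; exact one_ne_zero)
    have hlim : (fun i => v i / v 0) = v := by
      funext i
      rw [hv0, div_one]
    have h1 : {u : Fin (m + 1) → ℝ | u 0 ≠ 0 ∧ dist (fun i => u i / u 0) v < ε} ∈ 𝓝 v := by
      refine inter_mem ?_ ?_
      · exact (continuous_apply 0).continuousAt.eventually_ne (by rw [hv0]; exact one_ne_zero)
      · have h2 := hcont.tendsto
        rw [hlim] at h2
        exact h2 (Metric.ball_mem_nhds v hε)
    obtain ⟨η, hη, h2⟩ := Metric.mem_nhds_iff.1 h1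
    obtain ⟨w, hw, hwv⟩ := hden (m + 1) M v hMv η hη
    have h3 : rv w ∈ Metric.ball v η := by
      rw [Metric.mem_ball, dist_pi_lt_iff hη]
      intro i
      rw [Real.dist_eq]
      exact hwv i
    obtain ⟨h4, h5⟩ := h2 h3
    have hw0 : w 0 ≠ 0 := by
      intro h0
      apply h4
      simp [rv, h0]
    refine ⟨fun i => w i / w 0, div_self hw0, ?_, fun i => ?_⟩
    · have e1 : (fun i => w i / w 0) = (w 0)⁻¹ • w := by
        funext i
        simp [div_eq_inv_mul]
      rw [e1, mulVec_smul, hw]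
      simp
    · rw [dist_pi_lt_iff hε] at h5
      have := h5 i
      rw [Real.dist_eq] at this
      simp only [rv] at this
      push_cast
      exact this
  · obtain ⟨w0, hw0, hq0⟩ := hdeg (m + 1) M hM hr ⟨v, hMv, hv⟩
    -- a rational isotropic vector which is not orthogonal to `v`
    have hw1 : ∃ w1 : Fin (m + 1) → ℚ, w1 ⬝ᵥ M *ᵥ w1 = 0 ∧ rv w1 ⬝ᵥ MR *ᵥ v ≠ 0 := by
      by_cases h0 : rv w0 ⬝ᵥ MR *ᵥ v = 0
      · -- a vector not orthogonal to both
        have hu : ∃ u : Fin (m + 1) → ℚ, w0 ⬝ᵥ M *ᵥ u ≠ 0 ∧ rv u ⬝ᵥ MR *ᵥ v ≠ 0 := by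
          have h1 : ∃ i, (M *ᵥ w0) i ≠ 0 := by
            by_contra hcon
            push Not at hcon
            exact hw0 (funext hcon)
          have h2 : ∃ j, (MR *ᵥ v) j ≠ 0 := by
            by_contra hcon
            push Not at hcon
            exact hMv (funext hcon)
          obtain ⟨i, hi⟩ := h1
          obtain ⟨j, hj⟩ := h2
          have e1 : ∀ k, w0 ⬝ᵥ M *ᵥ (Pi.single k 1) = (M *ᵥ w0) k := by
            intro k
            rw [symm_dot hM, single_dotProduct, one_mul]
          have e2 : ∀ k, rv (Pi.single k 1) ⬝ᵥ MR *ᵥ v = (MR *ᵥ v) k := by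
            intro k
            have : rv (Pi.single k 1) = Pi.single k (1 : ℝ) := by
              funext l
              rcases eq_or_ne l k with h | h
              · subst h; simp [rv]
              · simp [rv, h]
            rw [this, single_dotProduct, one_mul]
          by_cases h3 : (MR *ᵥ v) i = 0
          · by_cases h4 : (M *ᵥ w0) j = 0
            · refine ⟨Pi.single i 1 + Pi.single j 1, ?_, ?_⟩
              · rw [mulVec_add, dotProduct_add, e1, e1, h4, add_zero]
                exact hi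
              · rw [rv_add, add_dotProduct, e2, e2, h3, zero_add]
                exact hj
            · exact ⟨Pi.single j 1, by rw [e1]; exact h4, by rw [e2]; exact hj⟩
          · exact ⟨Pi.single i 1, by rw [e1]; exact hi, by rw [e2]; exact h3⟩
        obtain ⟨u, hu1, hu2⟩ := hu
        refine ⟨pr M w0 u, pr_iso hM hq0 u, ?_⟩
        rw [rv_pr, ← hMR, pr_dot, h0, mul_zero, zero_sub]
        refine neg_ne_zero.2 (mul_ne_zero (mul_ne_zero two_ne_zero ?_) hu2)
        rw [hMR, rv_mulVec, rv_dot]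
        exact_mod_cast hu1
      · exact ⟨w0, hq0, h0⟩
    obtain ⟨w1, hq1, hw1⟩ := hw1
    refine red (fun u => pr MR (rv w1) u) (fun u => pr M w1 u) (pr_continuous _ _)
      (fun u => rv_pr M w1 u) ⟨-(2 * (rv w1 ⬝ᵥ MR *ᵥ v)), ?_, ?_⟩ (fun u => pr_iso hM hq1 u)
    · exact neg_ne_zero.2 (mul_ne_zero two_ne_zero hw1)
    · simp only [pr]
      rw [hv, zero_smul, zero_sub, neg_smul]

/-- **Deformation of real points of quadrics of constant rank.** -/
theorem lift (hker : S_KER) {m : ℕ} (M : Matrix (Fin (m + 1)) (Fin (m + 1)) ℝ) (hM : M.IsSymm)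
    (v : Fin (m + 1) → ℝ) (hv0 : v 0 = 1) (hv : v ⬝ᵥ M *ᵥ v = 0) {ε : ℝ} (hε : 0 < ε) :
    ∀ᶠ M' in 𝓝 M, M'.rank ≤ M.rank →
      ∃ v' : Fin (m + 1) → ℝ, v' 0 = 1 ∧ v' ⬝ᵥ M' *ᵥ v' = 0 ∧ ∀ i, |v' i - v i| < ε := by
  by_cases hMv : M *ᵥ v = 0
  · -- vertices
    have hcont : ContinuousAt (fun (u : Fin (m + 1) → ℝ) i => u i / u 0) v := by
      refine continuousAt_pi.2 fun i => ?_
      exact (continuous_apply i).continuousAt.div (continuous_apply 0).continuousAt (by
        rw [hv0]; exact one_ne_zero)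
    have hlim : (fun i => v i / v 0) = v := by
      funext i
      rw [hv0, div_one]
    have h1 : {u : Fin (m + 1) → ℝ | u 0 ≠ 0 ∧ dist (fun i => u i / u 0) v < ε} ∈ 𝓝 v := by
      refine inter_mem ?_ ?_
      · exact (continuous_apply 0).continuousAt.eventually_ne (by rw [hv0]; exact one_ne_zero)
      · have h2 := hcont.tendsto
        rw [hlim] at h2
        exact h2 (Metric.ball_mem_nhds v hε)
    obtain ⟨η, hη, h2⟩ := Metric.mem_nhds_iff.1 h1
    obtain ⟨δ, hδ, h3⟩ := hker (m + 1) M v hMv η hη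
    have h4 : ∀ᶠ M' in 𝓝 M, ∀ i j, |M' i j - M i j| < δ := by
      refine eventually_all.2 fun i => eventually_all.2 fun j => ?_
      have hc : Continuous fun M' : Matrix (Fin (m + 1)) (Fin (m + 1)) ℝ => M' i j :=
        (continuous_apply j).comp (continuous_apply i)
      have := hc.continuousAt (x := M) (Metric.ball_mem_nhds _ hδ)
      filter_upwards [this] with M' hM'
      rw [← Real.dist_eq]
      exact hM'
    filter_upwards [h4] with M' hM' hrk
    obtain ⟨w, hw, hwv⟩ := h3 M' hM' hrk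
    have h5 : w ∈ Metric.ball v η := by
      rw [Metric.mem_ball, dist_pi_lt_iff hη]
      intro i
      rw [Real.dist_eq]
      exact hwv i
    obtain ⟨h6, h7⟩ := h2 h5
    refine ⟨fun i => w i / w 0, div_self h6, ?_, fun i => ?_⟩
    · have e1 : (fun i => w i / w 0) = (w 0)⁻¹ • w := by
        funext i
        simp [div_eq_inv_mul]
      rw [e1, mulVec_smul, hw]
      simp
    · rw [dist_pi_lt_iff hε] at h7
      have := h7 i
      rwa [Real.dist_eq] at this
  · -- a coordinate direction which is transversal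
    have h1 : ∃ i : Fin m, (M *ᵥ v) i.succ ≠ 0 := by
      by_contra hcon
      push Not at hcon
      apply hMv
      funext k
      refine Fin.cases ?_ (fun i => ?_) k
      · have h2 := hv
        simp only [dotProduct] at h2
        rw [Fin.sum_univ_succ, hv0, one_mul] at h2
        simp only [hcon, mul_zero, Finset.sum_const_zero, add_zero] at h2
        exact h2
      · exact hcon i
    obtain ⟨i, hi⟩ := h1
    set e : Fin (m + 1) → ℝ := Pi.single i.succ 1 with he
    -- the restriction to the line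
    set φ : Matrix (Fin (m + 1)) (Fin (m + 1)) ℝ → ℝ → ℝ := fun M' s =>
      (v + s • e) ⬝ᵥ M' *ᵥ (v + s • e) with hφ
    have hφM : ∀ s, φ M s = 2 * s * (M *ᵥ v) i.succ + s ^ 2 * M i.succ i.succ := by
      intro s
      have e1 : e ⬝ᵥ M *ᵥ v = (M *ᵥ v) i.succ := by rw [he, single_dotProduct, one_mul]
      have e2 : e ⬝ᵥ M *ᵥ e = M i.succ i.succ := by
        rw [he, single_dotProduct, one_mul, mulVec_single_one]
        rfl
      simp only [hφ, mulVec_add, mulVec_smul, dotProduct_add, add_dotProduct, smul_dotProduct,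
        dotProduct_smul, smul_eq_mul, hv, symm_dot hM v e, e1, e2]
      ring
    have hφc : ∀ s, Continuous fun M' : Matrix (Fin (m + 1)) (Fin (m + 1)) ℝ => φ M' s := by
      intro s
      simp only [hφ, mulVec, dotProduct]
      refine continuous_finsetSum _ fun a _ => continuous_const.mul
        (continuous_finsetSum _ fun b _ => ?_)
      exact (Continuous.matrix_elem continuous_id a b).mul continuous_const
    have hφs : ∀ M' : Matrix (Fin (m + 1)) (Fin (m + 1)) ℝ, Continuous fun s => φ M' s := by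
      intro M'
      simp only [hφ, mulVec, dotProduct, Pi.add_apply, Pi.smul_apply, smul_eq_mul]
      fun_prop
    -- the step
    set c := (M *ᵥ v) i.succ with hc
    set a := M i.succ i.succ with ha
    set s0 : ℝ := min (ε / 2) (|c| / (|a| + 1)) with hs0
    have hs0p : 0 < s0 := lt_min (by linarith) (div_pos (abs_pos.2 hi) (by positivity))
    have hs0e : s0 < ε := (min_le_left _ _).trans_lt (by linarith)
    have hs0a : s0 * |a| < |c| := by
      have h2 : s0 ≤ |c| / (|a| + 1) := min_le_right _ _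
      rw [le_div_iff₀ (by positivity)] at h2
      nlinarith [abs_nonneg a]
    have key : ∀ M' : Matrix (Fin (m + 1)) (Fin (m + 1)) ℝ,
        (φ M' s0 < 0 ∧ 0 < φ M' (-s0)) ∨ (0 < φ M' s0 ∧ φ M' (-s0) < 0) →
        ∃ v' : Fin (m + 1) → ℝ, v' 0 = 1 ∧ v' ⬝ᵥ M' *ᵥ v' = 0 ∧ ∀ i, |v' i - v i| < ε := by
      intro M' h
      have hex : ∃ s ∈ Set.Icc (-s0) s0, φ M' s = 0 := by
        rcases h with ⟨h2, h3⟩ | ⟨h2, h3⟩
        · exact intermediate_value_Icc' (by linarith) (hφs M').continuousOn ⟨h2.le, h3.le⟩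
        · exact intermediate_value_Icc (by linarith) (hφs M').continuousOn ⟨h3.le, h2.le⟩
      obtain ⟨s, hs, hs2⟩ := hex
      refine ⟨v + s • e, ?_, hs2, fun k => ?_⟩
      · simp [he, hv0]
      · have h4 : (v + s • e) k - v k = s * e k := by simp
        rw [h4, abs_mul]
        have h5 : |e k| ≤ 1 := by
          rw [he]
          rcases eq_or_ne k i.succ with h | h
          · subst h; simp
          · simp [h]
        have h6 : |s| ≤ s0 := abs_le.2 hs
        calc |s| * |e k| ≤ s0 * 1 := mul_le_mul h6 h5 (abs_nonneg _) hs0p.le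
          _ < ε := by linarith
    have h7 : (φ M s0 < 0 ∧ 0 < φ M (-s0)) ∨ (0 < φ M s0 ∧ φ M (-s0) < 0) := by
      rw [hφM, hφM]
      have h8 := abs_le.1 (le_refl |a|)
      rcases lt_or_gt_of_ne hi with h | h
      · left
        rw [abs_of_neg h] at hs0a
        constructor <;> nlinarith [mul_nonneg hs0p.le hs0p.le, mul_le_mul_of_nonneg_left h8.1 (mul_nonneg hs0p.le hs0p.le), mul_le_mul_of_nonneg_left h8.2 (mul_nonneg hs0p.le hs0p.le)]
      · right
        rw [abs_of_pos h] at hs0a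
        constructor <;> nlinarith [mul_nonneg hs0p.le hs0p.le, mul_le_mul_of_nonneg_left h8.1 (mul_nonneg hs0p.le hs0p.le), mul_le_mul_of_nonneg_left h8.2 (mul_nonneg hs0p.le hs0p.le)]
    rcases h7 with ⟨h8, h9⟩ | ⟨h8, h9⟩
    · have k1 := (hφc s0).continuousAt.eventually_lt_const h8
      have k2 := (hφc (-s0)).continuousAt.eventually_const_lt h9
      filter_upwards [k1, k2] with M' g1 g2 _
      exact key M' (Or.inl ⟨g1, g2⟩)
    · have k1 := (hφc s0).continuousAt.eventually_const_lt h8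
      have k2 := (hφc (-s0)).continuousAt.eventually_lt_const h9
      filter_upwards [k1, k2] with M' g1 g2 _
      exact key M' (Or.inr ⟨g1, g2⟩)

end Pool.Agent.R847.QB
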