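import Pool.Agent.R847.QB.Clo
import Pool.Agent.R847.QB.Meyer
import Pool.Agent.R847.QB.Iso
import Pool.Agent.R847.QB.Dir
import Pool.Agent.R847.QB.Mat
import Pool.Agent.R847.QB.Deg
import Pool.Agent.R847.QB.Den
import Pool.Agent.R847.QB.Ker

/-!
# Families of quadrics over the line; the unconditional statements
-/

set_option autoImplicit false

namespace Pool.Agent.R847.QB

open Matrix Topology Filter Pool.Agent.TH729.SQ Pool.Agent.H581R2

/-- **The theorem of Meyer** -/
theorem mey : S_MEY := meyer iso_ dir_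

theorem deg : S_DEG := deg_ (mat_ mey)

/-- the general theorem -/
theorem main1 {n m : ℕ} {A : PM n m} (hA : A.IsSymm) {B : Set (Fin n → ℚ)}
    (h5 : ∀ r, 5 ≤ r → SA (closure (rv '' {b | b ∈ B ∧ (atq A b).rank = r})))
    (hlow : SA (closure (rv '' pts A {b | b ∈ B ∧ (atq A b).rank < 5}))) :
    SA (closure (rv '' pts A B)) := part1 deg den_ ker_ hA h5 hlow

/-- finitely many exceptional fibres -/
theorem main2 {n m : ℕ} {A : PM n m} (hA : A.IsSymm) {B : Set (Fin n → ℚ)}
    (hB : SA (closure (rv '' B))) {r : ℕ} (hr : 5 ≤ r)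
    (hfin : {b | b ∈ B ∧ (atq A b).rank ≠ r}.Finite) : SA (closure (rv '' pts A B)) :=
  part2 deg den_ ker_ hA hB hr hfin

/-- a nonzero polynomial in one variable has finitely many zeros -/
theorem fin_zeros (p : MvPolynomial (Fin 1) ℚ) {t0 : Fin 1 → ℚ} (h0 : MvPolynomial.eval t0 p ≠ 0) :
    {t : Fin 1 → ℚ | MvPolynomial.eval t p = 0}.Finite := by
  set P : Polynomial ℚ := MvPolynomial.aeval (fun _ => Polynomial.X) p with hP
  have he : ∀ t : Fin 1 → ℚ, MvPolynomial.eval t p = P.eval (t 0) := by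
    intro t
    have h1 : (Polynomial.evalRingHom (t 0)).comp
        (MvPolynomial.aeval (fun _ : Fin 1 => (Polynomial.X : Polynomial ℚ))).toRingHom =
          MvPolynomial.eval t := by
      refine MvPolynomial.ringHom_ext (fun r => ?_) (fun i => ?_)
      · simp
      · rw [Subsingleton.elim i 0]
        simp
    exact (RingHom.congr_fun h1 p).symm
  have hP0 : P ≠ 0 := by
    intro h
    apply h0
    rw [he, h, Polynomial.eval_zero]
  refine Set.Finite.of_finite_image (f := fun t : Fin 1 → ℚ => t 0) ?_ ?_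
  · refine (P.roots.toFinset.finite_toSet).subset ?_
    rintro _ ⟨t, ht, rfl⟩
    simp only [Finset.mem_coe, Multiset.mem_toFinset]
    rw [Polynomial.mem_roots hP0, Polynomial.IsRoot.def, ← he]
    exact ht
  · intro s _ t _ h
    funext i
    rw [Subsingleton.elim i 0]
    exact h

/-- **families over the line** -/
theorem main3 {m : ℕ} {A : PM 1 m} (hA : A.IsSymm) (h5 : ∃ t : Fin 1 → ℚ, 5 ≤ (atq A t).rank) :
    SA (closure (rv '' pts A Set.univ)) := by
  classical
  -- the generic rank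
  obtain ⟨r, hr, ⟨t0, ht0⟩, hmax⟩ : ∃ r, 5 ≤ r ∧ (∃ t, r = (atq A t).rank) ∧
      ∀ t, (atq A t).rank ≤ r := by
    have hb : ∀ t, (atq A t).rank ≤ m + 1 := rank_le A
    obtain ⟨t1, h1⟩ := h5
    have hne : (Set.range fun t => (atq A t).rank).Nonempty := ⟨_, t1, rfl⟩
    have hbd : BddAbove (Set.range fun t => (atq A t).rank) := ⟨m + 1, by rintro _ ⟨t, rfl⟩; exact hb t⟩
    have hmem := Nat.sSup_mem hne hbd
    refine ⟨sSup (Set.range fun t => (atq A t).rank), ?_, ?_, ?_⟩
    · exact h1.trans (le_csSup hbd ⟨t1, rfl⟩)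
    · obtain ⟨t, ht⟩ := hmem
      exact ⟨t, ht.symm⟩
    · intro t
      exact le_csSup hbd ⟨t, rfl⟩
  obtain ⟨C, D, hCD⟩ := (rank_ge_iff (atq A t0)).1 (le_of_eq ht0)
  set p : MvPolynomial (Fin 1) ℚ :=
    Matrix.det (C.map (MvPolynomial.C : ℚ →+* MvPolynomial (Fin 1) ℚ) * A *
      D.map (MvPolynomial.C : ℚ →+* MvPolynomial (Fin 1) ℚ)) with hp
  have hpe : ∀ t, MvPolynomial.eval t p = (C * atq A t * D).det := by
    intro t
    have hC : (C.map (MvPolynomial.C : ℚ →+* MvPolynomial (Fin 1) ℚ)).map (MvPolynomial.eval t) = C := by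
      ext i j; simp
    have hD : (D.map (MvPolynomial.C : ℚ →+* MvPolynomial (Fin 1) ℚ)).map (MvPolynomial.eval t) = D := by
      ext i j; simp
    rw [hp, RingHom.map_det, RingHom.mapMatrix_apply, Matrix.map_mul, Matrix.map_mul, hC, hD]
    rfl
  have hsa : SA (closure (rv '' (Set.univ : Set (Fin 1 → ℚ)))) := by
    have : closure (rv '' (Set.univ : Set (Fin 1 → ℚ))) = Set.univ := by
      rw [Set.image_univ]
      refine Set.eq_univ_of_forall fun x => mem_closure_iff_nhds.2 fun U hU => ?_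
      obtain ⟨w, hw⟩ := exists_rat hU
      exact ⟨_, hw, w, rfl⟩
    rw [this]
    exact SA.univ
  refine main2 hA hsa hr ((fin_zeros p (t0 := t0) ?_).subset ?_)
  · rw [hpe, hCD, Matrix.det_one]
    exact one_ne_zero
  · rintro t ⟨-, ht⟩
    by_contra hcon
    have h1 : (C * atq A t * D).det ≠ 0 := by
      rw [← hpe]
      exact hcon
    apply ht
    refine le_antisymm (hmax t) ?_
    have h2 := rank_of_det_ne_zero (A := C * atq A t * D) h1
    rw [Fintype.card_fin] at h2
    calc r = (C * atq A t * D).rank := h2.symm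
      _ ≤ (atq A t).rank := (rank_mul_le_left _ _).trans (rank_mul_le_right _ _)

end Pool.Agent.R847.QB
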